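import Pool.Agent.FAT.Stmts

/-!
# FAT, module Capture: the heart
-/

set_option autoImplicit false

namespace Pool.FAT

open Ordinal Cardinal Order Set

namespace CaptureX

/-- limits of a continuous sequence are limits -/
theorem limit {o ξ : Ordinal.{0}} {e : Ordinal.{0} → Ordinal.{0}} (h : NSeq o ξ e)
    {i : Ordinal.{0}} (hi : i < o) (hl : IsSuccLimit i) : IsSuccLimit (e i) := by
  rw [Ordinal.isSuccLimit_iff]
  constructor
  · intro h0
    have h1 := h.strict i hi 0 (by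
      rw [pos_iff_ne_zero]
      exact (Ordinal.isSuccLimit_iff.1 hl).1)
    rw [h0] at h1
    exact absurd h1 (not_lt.2 (zero_le))
  · apply isSuccPrelimit_of_succ_lt
    intro a ha
    obtain ⟨i', hi', h1⟩ := h.cont i hi hl a ha
    exact (succ_le_of_lt h1).trans_lt (h.strict i hi i' hi')

theorem cof_eq (hC : Stmt_CofEq) {o ξ : Ordinal.{0}} {e : Ordinal.{0} → Ordinal.{0}}
    (h : NSeq o ξ e) {i : Ordinal.{0}} (hi : i < o) (hl : IsSuccLimit i) :
    (e i).cof = i.cof :=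
  hC i (e i) e hl (fun i' hi' => h.strict i hi i' hi')
    (fun i' hi' i'' hi'' => h.strict i' (hi'.trans hi) i'' hi'') (fun β hβ => h.cont i hi hl β hβ)

end CaptureX

open CaptureX in
theorem t_Capture : Stmt_Tail → Stmt_Compl → Stmt_Fodor → Stmt_CofPts → Stmt_Seq →
    Stmt_CofEq → Stmt_Lift → Stmt_Pull → Stmt_KEQ → Stmt_Capture := by
  intro hTail hCompl hFodor hCofPts hSeq hCofEq hLift hPull hKEQ
    lam κ θ μ F G C γ δ Γ χ hctx hsc hG hch hWS
  classical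
  have hκθ : κ < θ := hctx.tbig
  have hΘlim : IsSuccLimit θ.ord := isSuccLimit_ord hctx.treg.aleph0_le
  have hKlim : IsSuccLimit κ.ord := isSuccLimit_ord hctx.kreg.aleph0_le
  have hK0 : 0 < κ.ord := by
    rw [pos_iff_ne_zero]
    exact (Ordinal.isSuccLimit_iff.1 hKlim).1
  have hkev : ∀ᶠ k in CF κ.ord, k < κ.ord ∧ IsSuccLimit k :=
    (hTail κ.ord 0 hK0).mono fun k h => h.2
  have hμmono : ∀ i j, i ≤ j → j < κ.ord → μ i ≤ μ j := by
    intro i j hij hj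
    rcases hij.eq_or_lt with rfl | h
    · exact le_rfl
    · exact (hctx.mono i j h hj).le
  -- the clubs
  let W : Ordinal.{0} → Prop := fun k => k < κ.ord ∧ WSfam (μ k) θ (C k)
  have hΓcof : ∀ k < κ.ord, (Γ k).cof = θ := by
    intro k hk
    have h := hch.chi k hk
    rw [hCofEq θ.ord (Γ k) (fun η => χ η k) hΘlim h.lt h.strict h.cofinal]
    exact hctx.treg.cof_ord
  have hD : ∀ k, ∃ D : Set Ordinal.{0}, W k → IsClubIn D (Γ k) ∧
      ∀ ε ∈ D, ε.cof = (μ k).ord.cof →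
        ∃ j < (μ k).ord, ∀ α ∈ D, α < ε → α.cof = (μ k).ord.cof → α ∈ C k ε j := by
    intro k
    by_cases hk : W k
    · obtain ⟨D, hD⟩ := hk.2.2 (Γ k) (hch.Gam k hk.1) (hΓcof k hk.1)
      exact ⟨D, fun _ => hD⟩
    · exact ⟨∅, fun h => absurd h hk⟩
  choose D hD using hD
  let Q : Ordinal.{0} → Prop := fun η => ∀ k, W k → χ η k ∈ D k
  have hQ : ∀ᶠ η in CF θ.ord, Q η := by
    have h1 := hCompl θ hctx.treg (Set.Iio κ.ord) (by
      rw [Cardinal.mk_Iio_ordinal, card_ord, Cardinal.lift_lt]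
      exact hκθ) (fun k η => W k.1 → χ η k.1 ∈ D k.1) (by
      intro k
      by_cases hk : W k.1
      · exact (hPull θ (Γ k.1) (fun η => χ η k.1) (D k.1) hctx.treg (hch.chi k.1 k.2)
          (hD k.1 hk).1).mono fun η h _ => h.2
      · exact Filter.Eventually.of_forall fun η h => absurd h hk)
    refine h1.mono ?_
    intro η h k hk
    exact h ⟨k, hk.1⟩ hk
  -- the cofinality of the points of the chain
  have hcofε : ∀ ξ < θ.ord, ∀ e, NSeq κ.ord ξ e → ∀ k < κ.ord, IsSuccLimit k →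
      (χ (e k) k).cof = (μ k).ord.cof := by
    intro ξ hξ e he k hk hl
    have hek : e k < θ.ord := (he.lt k hk).trans hξ
    have hel : IsSuccLimit (e k) := limit he hk hl
    have hμk : (μ k).ord.cof = k.cof := by
      refine hCofEq k (μ k).ord (fun i => (μ i).ord) hl ?_ ?_ ?_
      · intro i hi
        exact ord_lt_ord.2 (hctx.mono i k hi hk)
      · intro i hi i' hi'
        exact ord_lt_ord.2 (hctx.mono i' i hi' (hi.trans hk))
      · intro β hβ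
        obtain ⟨i, hi, h2⟩ := hctx.cont k hk hl β.card (lt_ord.1 hβ)
        exact ⟨i, hi, lt_ord.2 h2⟩
    rw [hμk, ← cof_eq hCofEq he hk hl]
    exact cof_eq hCofEq (hch.chi k hk) hek hel
  -- the predicate
  let Pk : Ordinal.{0} → (Ordinal.{0} → Ordinal.{0}) → Ordinal.{0} → Prop := fun ν e k =>
    W k ∧ ∃ j < (μ ν).ord, #(C k (χ (e k) k) j) ≤ Cardinal.lift.{1} (μ ν) ∧
      ∀ α ∈ D k, α < χ (e k) k → α.cof = (μ k).ord.cof → α ∈ C k (χ (e k) k) j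
  let Pr : Ordinal.{0} → Ordinal.{0} → Prop := fun ν ξ =>
    ξ < θ.ord ∧ ξ.cof = κ ∧ ∃ e, NSeq κ.ord ξ e ∧ (∀ᶠ k in CF κ.ord, Q (e k)) ∧
      ∃ᶠ k in CF κ.ord, Pk ν e k
  have hgood : ∃ᶠ ξ in CF θ.ord, ∃ ν < κ.ord, Pr ν ξ := by
    have hΘ0 : 0 < θ.ord := by
      rw [pos_iff_ne_zero]
      exact (Ordinal.isSuccLimit_iff.1 hΘlim).1
    refine (((hCofPts θ κ hctx.treg hctx.kreg hκθ).and_eventually
      (hTail θ.ord 0 hΘ0)).and_eventually
      (hLift θ κ hctx.treg hctx.kreg hκθ Q hQ)).mono ?_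
    rintro ξ ⟨⟨hcof, -, hξ, -⟩, hlift⟩
    obtain ⟨e, he⟩ := hSeq ξ (by rw [hcof]; exact hctx.kreg.aleph0_le)
    rw [hcof] at he
    have hQe := hlift e he
    -- the index
    have h1 : ∀ k, ∃ i, W k → IsSuccLimit k → Q (e k) → i < k ∧ Pk i e k := by
      intro k
      by_cases hk : W k ∧ IsSuccLimit k ∧ Q (e k)
      · obtain ⟨hk1, hl, hQk⟩ := hk
        obtain ⟨j, hj, hj'⟩ := (hD k hk1).2 (χ (e k) k) (hQk k hk1) (hcofε ξ hξ e he k hk1.1 hl)
        obtain ⟨i, hi, h2⟩ := hctx.cont k hk1.1 hl j.card (lt_ord.1 hj)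
        obtain ⟨ν', hν', he'⟩ := Cardinal.lt_lift_iff.1 (hk1.2.1 (χ (e k) k) j)
        obtain ⟨i', hi', h2'⟩ := hctx.cont k hk1.1 hl ν' hν'
        have hm : max i i' < k := max_lt hi hi'
        refine ⟨max i i', fun _ _ _ => ⟨hm, hk1, j, ?_, ?_, hj'⟩⟩
        · exact lt_ord.2 (h2.trans_le (hμmono _ _ (le_max_left _ _) (hm.trans hk1.1)))
        · rw [← he', Cardinal.lift_le]
          exact h2'.le.trans (hμmono _ _ (le_max_right _ _) (hm.trans hk1.1))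
      · exact ⟨0, fun h h' h'' => absurd ⟨h, h', h''⟩ hk⟩
    choose f hf using h1
    obtain ⟨ν, hν, h2⟩ := hFodor κ hctx.kreg (fun k => Pk (f k) e k) f (by
      refine ((hWS.and_eventually hkev).and_eventually hQe).mono ?_
      rintro k ⟨⟨h3, h4, h5⟩, h6⟩
      have h7 : W k := ⟨h4, h3⟩
      exact ⟨(hf k h7 h5 h6).2, (hf k h7 h5 h6).1⟩)
    refine ⟨ν, hν, hξ, hcof, e, he, hQe, h2.mono ?_⟩
    rintro k ⟨h3, h4⟩
    rw [h4] at h3
    exact h3
  -- the pigeonhole principle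
  obtain ⟨ν, hν, hR⟩ : ∃ ν < κ.ord, ∃ᶠ ξ in CF θ.ord, Pr ν ξ := by
    by_contra hcon
    push Not at hcon
    have h1 := hCompl θ hctx.treg (Set.Iio κ.ord) (by
      rw [Cardinal.mk_Iio_ordinal, card_ord, Cardinal.lift_lt]
      exact hκθ) (fun ν ξ => ¬ Pr ν.1 ξ) (fun ν => hcon ν.1 ν.2)
    refine hgood ?_
    refine h1.mono ?_
    rintro ξ h ⟨ν, hν, hPr⟩
    exact h ⟨ν, hν⟩ hPr
  refine ⟨ν, hν, {ξ | Pr ν ξ}, fun ξ hξ => ⟨hξ.1, hξ.2.1⟩, hR, ?_⟩
  rintro ξ ⟨hξ, hcof, e, he, hQe, hfr⟩ ξ' ⟨hξ', hcof', e', he', hQe', -⟩ hlt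
  refine ⟨hch.del.strict ξ hξ ξ' hlt, ?_, ?_⟩
  · rw [cof_eq hCofEq hch.del hξ' (Ordinal.one_lt_cof_iff.1 (by
      rw [hcof']
      exact Cardinal.one_lt_aleph0.trans_le hctx.kreg.aleph0_le))]
    exact hcof'
  · obtain ⟨i₀, hi₀, hi₀'⟩ := he.cofinal ξ' hlt
    refine ((((hfr.and_eventually (hKEQ lam κ θ μ F G γ δ Γ χ hctx hsc hG hch ξ hξ e he)
      ).and_eventually (hKEQ lam κ θ μ F G γ δ Γ χ hctx hsc hG hch ξ' hξ' e' he')).and_eventually
      hQe').and_eventually (hTail κ.ord i₀ hi₀)).mono ?_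
    rintro k ⟨⟨⟨⟨⟨hW, j, hj, hcard, hj'⟩, h1⟩, h2⟩, h3⟩, h4, h5, h6⟩
    refine ⟨j, hj, ?_, ?_⟩
    · rw [h1]
      exact hcard
    · rw [h1, h2]
      refine hj' _ (h3 k hW) ?_ (hcofε ξ' hξ' e' he' k h5 h6)
      have h7 : e' k < e k := ((he'.lt k h5).trans hi₀').trans (he.strict k h5 i₀ h4)
      exact (hch.chi k h5).strict (e k) ((he.lt k h5).trans hξ) (e' k) h7

end Pool.FAT
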