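import Pool.Agent.FAT.Final

/-!
MP_a44074_lc, project FAT: from the sequence `μ k` to stationary sets of cardinals below `lam`.
-/

set_option autoImplicit false

namespace Pool.FAT

open Ordinal Cardinal Order Set

namespace Reduce

/-- An increasing continuous sequence of cardinals from a sequence of ordinals. -/
noncomputable def mu (θ : Cardinal.{0}) (e : Ordinal.{0} → Ordinal.{0}) (k : Ordinal.{0}) :
    Cardinal.{0} :=
  max θ (⨆ i : Set.Iio k, succ (max (mu θ e i) (e i).card))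
termination_by k
decreasing_by exact i.2

theorem base_mu (θ : Cardinal.{0}) (e : Ordinal.{0} → Ordinal.{0}) (k : Ordinal.{0}) :
    θ ≤ mu θ e k := by
  rw [mu]
  exact le_max_left _ _

theorem le_mu (θ : Cardinal.{0}) (e : Ordinal.{0} → Ordinal.{0}) {i k : Ordinal.{0}}
    (h : i < k) : succ (max (mu θ e i) (e i).card) ≤ mu θ e k := by
  rw [mu.eq_1 θ e k]
  refine le_trans ?_ (le_max_right _ _)
  exact le_ciSup (f := fun i : Set.Iio k => succ (max (mu θ e i) (e i).card))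
    Cardinal.bddAbove_of_small ⟨i, h⟩

theorem lt_mu (θ : Cardinal.{0}) (e : Ordinal.{0} → Ordinal.{0}) {i k : Ordinal.{0}}
    (h : i < k) : mu θ e i < mu θ e k :=
  ((le_max_left _ _).trans_lt (lt_succ _)).trans_le (le_mu θ e h)

theorem of_lt_mu (θ : Cardinal.{0}) (e : Ordinal.{0} → Ordinal.{0}) {k : Ordinal.{0}}
    {ν : Cardinal.{0}} (h : ν < mu θ e k) :
    ν < θ ∨ ∃ i < k, ν < succ (max (mu θ e i) (e i).card) := by
  rw [mu.eq_1 θ e k, lt_max_iff] at h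
  refine h.imp id fun h => ?_
  rw [lt_ciSup_iff' Cardinal.bddAbove_of_small] at h
  obtain ⟨i, hi⟩ := h
  exact ⟨i, i.2, hi⟩

theorem mu_lt {lam θ : Cardinal.{0}} {e : Ordinal.{0} → Ordinal.{0}}
    (hs : ∀ ν < lam, succ ν < lam) (ht : θ < lam)
    (he : ∀ i < lam.ord.cof.ord, e i < lam.ord) (k : Ordinal.{0})
    (hk : k < lam.ord.cof.ord) : mu θ e k < lam := by
  induction k using WellFoundedLT.induction with
  | ind k ih =>
    rw [mu]
    refine max_lt ht ?_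
    refine Cardinal.lift_iSup_lt_of_lt_cof_ord ?_ ?_
    · rw [Cardinal.mk_Iio_ordinal, Cardinal.lift_lift]
      have : (Cardinal.lift.{1} lam).ord.cof = Cardinal.lift.{1} lam.ord.cof := by
        simp
      rw [this, Cardinal.lift_lt]
      exact Cardinal.lt_ord.1 hk
    · rintro ⟨i, hi⟩
      refine hs _ (max_lt (ih i hi (lt_trans hi hk)) ?_)
      exact Cardinal.lt_ord.1 (he i (lt_trans hi hk))

/-- A context for `lam`. -/
theorem exists_ctx (hSeq : Stmt_Seq) {lam θ : Cardinal.{0}} (h1 : ℵ₀ < lam.ord.cof)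
    (h2 : lam.ord.cof < lam) (h3 : ∀ ν < lam, ν ^ lam.ord.cof < lam)
    (h5 : θ.IsRegular) (h6 : lam.ord.cof < θ) (h7 : θ < lam) :
    ∃ μ, Ctx lam lam.ord.cof θ μ := by
  have hinf : ℵ₀ ≤ lam := (h1.trans h2).le
  have hsing : IsSingular lam := by
    refine IsSingular.of_not_isRegular hinf fun h => ?_
    exact h2.ne h.cof_ord
  have hs : ∀ ν < lam, succ ν < lam := fun ν hν => hsing.isSuccLimit.succ_lt hν
  obtain ⟨e, he⟩ := hSeq lam.ord h1.le
  have hK : IsSuccLimit lam.ord.cof.ord := Cardinal.isSuccLimit_ord h1.le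
  have hreg : lam.ord.cof.IsRegular := Cardinal.isRegular_cof (Cardinal.isSuccLimit_ord hinf)
  refine ⟨mu θ e, ?_⟩
  exact
    { kreg := hreg
      kunc := h1
      treg := h5
      tbig := h6
      base := fun k _ => base_mu θ e k
      mono := fun i j hij _ => lt_mu θ e hij
      lt := fun k hk => mu_lt hs h7 he.lt k hk
      cofinal := by
        intro ν hν
        obtain ⟨i, hi, hi2⟩ := he.cofinal ν.ord (Cardinal.ord_lt_ord.2 hν)
        refine ⟨succ i, hK.succ_lt hi, ?_⟩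
        refine lt_of_lt_of_le ?_ (le_mu θ e (lt_succ i))
        refine lt_of_le_of_lt ?_ (lt_succ _)
        exact (Cardinal.ord_le.1 hi2.le).trans (le_max_right _ _)
      cont := by
        intro k _ hl ν hν
        rcases of_lt_mu θ e hν with h | ⟨i, hi, h⟩
        · have h0 : (0 : Ordinal.{0}) < k := by simpa using hl.bot_lt
          exact ⟨0, h0, h.trans_le (base_mu θ e 0)⟩
        · exact ⟨succ i, hl.succ_lt hi, h.trans_le (le_mu θ e (lt_succ i))⟩
      pow := h3 }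

/-- Limits of the image: `E` is a set of indices closed in `κ.ord`. -/
theorem isClubIn_image {lam κ θ : Cardinal.{0}} {μ : Ordinal.{0} → Cardinal.{0}}
    (c : Ctx lam κ θ μ) {C : Set Ordinal.{0}} (hC : IsClubIn C κ.ord) :
    IsClubIn ((fun k => (μ k).ord) '' C) lam.ord := by
  have hK : IsSuccLimit κ.ord := Cardinal.isSuccLimit_ord c.kreg.aleph0_le
  have hcof : ∀ β < lam.ord, ∃ k < κ.ord, β < (μ k).ord := by
    intro β hβ
    obtain ⟨k, hk, hk2⟩ := c.cofinal β.card (Cardinal.lt_ord.1 hβ)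
    exact ⟨k, hk, Cardinal.lt_ord.2 hk2⟩
  have hmono : ∀ i k, i ≤ k → k < κ.ord → (μ i).ord ≤ (μ k).ord := fun i k hik hk =>
    Cardinal.ord_le_ord.2 (Final.ctx_mono c i k hik hk)
  refine ⟨?_, ?_, ?_⟩
  · rintro _ ⟨k, hk, rfl⟩
    exact Cardinal.ord_lt_ord.2 (c.lt k (hC.1 hk))
  · intro β hβ
    obtain ⟨k, hk, hk2⟩ := hcof β hβ
    obtain ⟨i, hi, hi2⟩ := hC.2.1 k hk
    exact ⟨_, ⟨i, hi, rfl⟩, hk2.trans_le (hmono k i hi2.le (hC.1 hi))⟩
  · intro β hβ hβ0 hlim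
    -- the least index with `β ≤ (μ k).ord`
    obtain ⟨k₁, hk₁, hk₁'⟩ := hcof β hβ
    set s : Set Ordinal.{0} := {k | k < κ.ord ∧ β ≤ (μ k).ord} with hs
    have hne : s.Nonempty := ⟨k₁, hk₁, hk₁'.le⟩
    obtain ⟨hk, hkβ⟩ : sInf s ∈ s := csInf_mem hne
    set k := sInf s with hkdef
    have hlt : ∀ i < k, (μ i).ord < β := by
      intro i hi
      by_contra hcon
      have : i ∈ s := ⟨hi.trans hk, not_lt.1 hcon⟩
      exact absurd (csInf_le' this) (not_le.2 hi)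
    have hidx : ∀ i ∈ C, (μ i).ord < β → i < k := by
      intro i hi h
      by_contra hcon
      exact absurd (hkβ.trans (hmono k i (not_lt.1 hcon) (hC.1 hi))) (not_le.2 h)
    have hCk : ∀ i < k, ∃ c' ∈ C, i < c' ∧ c' < k := by
      intro i hi
      obtain ⟨_, ⟨c', hc', rfl⟩, h1, h2⟩ := hlim _ (hlt i hi)
      refine ⟨c', hc', ?_, hidx c' hc' h2⟩
      by_contra hcon
      exact absurd (hmono c' i (not_lt.1 hcon) (hi.trans hk)) (not_le.2 h1)
    have hk0 : k ≠ 0 := by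
      intro h0
      obtain ⟨_, ⟨c', hc', rfl⟩, -, h2⟩ := hlim 0 (pos_iff_ne_zero.2 hβ0)
      have := hidx c' hc' h2
      rw [h0] at this
      exact not_lt_zero this
    have hkC : k ∈ C := hC.2.2 k hk hk0 hCk
    have hkl : IsSuccLimit k := by
      rw [isSuccLimit_iff, isSuccPrelimit_iff_succ_lt]
      refine ⟨by simpa using hk0, fun i hi => ?_⟩
      obtain ⟨c', -, h1, h2⟩ := hCk i hi
      exact (succ_le_of_lt h1).trans_lt h2
    refine ⟨k, hkC, le_antisymm ?_ hkβ⟩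
    by_contra hcon
    rw [not_le] at hcon
    obtain ⟨i, hi, hi2⟩ := c.cont k hk hkl β.card (Cardinal.lt_ord.1 hcon)
    exact absurd (Cardinal.lt_ord.2 hi2) (not_lt.2 (hlt i hi).le)

/-- The cofinality of `μ k`. -/
theorem cof_mu (hCofEq : Stmt_CofEq) {lam κ θ : Cardinal.{0}}
    {μ : Ordinal.{0} → Cardinal.{0}} (c : Ctx lam κ θ μ) {k : Ordinal.{0}} (hk : k < κ.ord)
    (hl : IsSuccLimit k) : (μ k).ord.cof = k.cof :=
  hCofEq k (μ k).ord (fun i => (μ i).ord) hl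
    (fun i hi => Cardinal.ord_lt_ord.2 (c.mono i k hi hk))
    (fun i hi i' hi' => Cardinal.ord_lt_ord.2 (c.mono i' i hi' (hi.trans hk)))
    (fun β hβ => by
      obtain ⟨i, hi, hi2⟩ := c.cont k hk hl β.card (Cardinal.lt_ord.1 hβ)
      exact ⟨i, hi, Cardinal.lt_ord.2 hi2⟩)

theorem isClubIn_lim {κ : Cardinal.{0}} {C : Set Ordinal.{0}}
    (hu : ∀ β < κ.ord, ∃ c ∈ C, β < c ∧ IsSuccLimit c) (hC : IsClubIn C κ.ord) :
    IsClubIn {k ∈ C | IsSuccLimit k} κ.ord := by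
  refine ⟨fun k hk => hC.1 hk.1, ?_, ?_⟩
  · intro β hβ
    obtain ⟨c, hc, h1, h2⟩ := hu β hβ
    exact ⟨c, ⟨hc, h2⟩, h1⟩
  · intro β hβ h0 h
    refine ⟨hC.2.2 β hβ h0 fun δ hδ => ?_, ?_⟩
    · obtain ⟨c, hc, h1, h2⟩ := h δ hδ
      exact ⟨c, hc.1, h1, h2⟩
    · rw [isSuccLimit_iff, isSuccPrelimit_iff_succ_lt]
      refine ⟨by simpa using h0, fun i hi => ?_⟩
      obtain ⟨c', -, h1, h2⟩ := h i hi
      exact (succ_le_of_lt h1).trans_lt h2

theorem exists_lim (hTail : Stmt_Tail) (hCofPts : Stmt_CofPts) (hPull : Stmt_Pull)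
    {κ : Cardinal.{0}} (hreg : κ.IsRegular) (hunc : ℵ₀ < κ) {C : Set Ordinal.{0}}
    (hC : IsClubIn C κ.ord) : ∀ β < κ.ord, ∃ c ∈ C, β < c ∧ IsSuccLimit c := by
  intro β hβ
  have h1 := hPull κ κ.ord (fun i => i) C hreg (Final.nseq_id hreg.aleph0_le) hC
  have h2 := hTail κ.ord β hβ
  have h3 := hCofPts κ ℵ₀ hreg Cardinal.isRegular_aleph0 hunc
  obtain ⟨k, -, hk1, hk2⟩ := (h3.and_eventually (h1.and h2)).exists
  exact ⟨k, hk1.2, hk2.1, hk2.2.2⟩

end Reduce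

open Reduce in
/-- The main theorem for stationary sets of cardinals. -/
theorem main_set (hTail : Stmt_Tail) (hCofPts : Stmt_CofPts) (hPull : Stmt_Pull)
    (hSeq : Stmt_Seq) (hCofEq : Stmt_CofEq) (hWSq : Stmt_WSq) (hMain : Stmt_Main)
    (lam θ : Cardinal.{0}) (h1 : ℵ₀ < lam.ord.cof) (h2 : lam.ord.cof < lam)
    (h3 : ∀ ν < lam, ν ^ lam.ord.cof < lam)
    (h5 : θ.IsRegular) (h6 : lam.ord.cof < θ) (h7 : θ < lam)
    (hE : ∀ E : Set Ordinal.{0}, IsClubIn E lam.ord →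
      ∃ ε ∈ E, ∀ μ : Cardinal.{0}, ε = μ.ord → WS μ θ ∨ WeakSquare μ) : Fat lam θ := by
  obtain ⟨μ, c⟩ := exists_ctx hSeq h1 h2 h3 h5 h6 h7
  refine hMain lam lam.ord.cof θ μ c rfl fun C hC => ?_
  have hC' := isClubIn_lim (exists_lim hTail hCofPts hPull c.kreg h1 hC) hC
  obtain ⟨_, ⟨k, ⟨hk, hl⟩, rfl⟩, hws⟩ := hE _ (isClubIn_image c hC')
  have hk3 : k < lam.ord.cof.ord := hC.1 hk
  refine ⟨k, hk, ?_⟩
  rcases hws (μ k) rfl with h | h
  · exact h
  · refine hWSq (μ k) θ (Final.ctx_aleph0_le c k hk3) h5 (h1.trans h6) ?_ h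
    rw [cof_mu hCofEq c hk3 hl]
    intro heq
    have h8 : k.cof < lam.ord.cof := (Ordinal.cof_le_card k).trans_lt (Cardinal.lt_ord.1 hk3)
    rw [← heq] at h8
    exact absurd (h8.trans (Final.ctx_k_lt_theta c)) (lt_irrefl _)

end Pool.FAT
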