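import Pool.Agent.FAT.Stmts

/-!
MP_a44074_lc, project FAT, module WSq: weak square implies `WS(μ, θ)`.
-/

set_option autoImplicit false

namespace Pool.FAT

open Ordinal Cardinal Order Set

namespace WSqX

/-- The inclusion of a cofinal set of ordinals below `γ`. -/
theorem cof_of_club {D : Set Ordinal.{0}} {γ : Ordinal.{0}} (hD : IsClubIn D γ) :
    Order.cof D = Cardinal.lift.{1} γ.cof := by
  have hmono : StrictMono (fun a : D => (⟨a.1, hD.1 a.2⟩ : Set.Iio γ)) := fun a b hab => hab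
  have hcof : IsCofinal (Set.range (fun a : D => (⟨a.1, hD.1 a.2⟩ : Set.Iio γ))) := by
    intro x
    obtain ⟨c, hc, hxc⟩ := hD.2.1 x.1 x.2
    exact ⟨⟨c, hD.1 hc⟩, ⟨⟨c, hc⟩, rfl⟩, hxc.le⟩
  have := Order.cof_congr_of_strictMono hmono hcof
  rw [this, Ordinal.cof_Iio, ← Ordinal.lift_cof]

theorem limit_of_points {D : Set Ordinal.{0}} {ε : Ordinal.{0}} (h0 : ε ≠ 0)
    (h : ∀ δ < ε, ∃ c ∈ D, δ < c ∧ c < ε) : IsSuccLimit ε := by
  refine ⟨?_, ?_⟩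
  · intro hm
    exact h0 (le_antisymm (hm (show (0 : Ordinal.{0}) ≤ ε from zero_le)) zero_le)
  · intro b hb
    obtain ⟨c, -, h1, h2⟩ := h b hb.lt
    exact hb.2 h1 h2

theorem card_lt {D : Set Ordinal.{0}} {γ : Ordinal.{0}} {μ θ : Cardinal.{0}}
    (hD : IsClubIn D γ) (hγ : γ.cof = θ) (hne : θ ≠ μ.ord.cof)
    (ht : Ordinal.type (fun a b : D => a < b) ≤ Ordinal.lift.{1} μ.ord) :
    #D < Cardinal.lift.{1} μ := by
  rcases ht.lt_or_eq with h | h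
  · have h2 : Ordinal.type (fun a b : D => a < b) < (Cardinal.lift.{1} μ).ord := by
      rwa [← Cardinal.lift_ord]
    have h3 := Cardinal.lt_ord.1 h2
    rwa [Ordinal.card_type] at h3
  · exfalso
    have h1 : (Ordinal.type (fun a b : D => a < b)).cof = Order.cof D := Ordinal.cof_type D
    rw [h, ← Ordinal.lift_cof, cof_of_club hD, Cardinal.lift_inj] at h1
    exact hne (hγ.symm.trans h1.symm)

end WSqX

/-- The limit points of `D` in `D` form a club. -/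
theorem isClubIn_acc (hTail : Stmt_Tail) (hCofPts : Stmt_CofPts) (hSeq : Stmt_Seq)
    (hPull : Stmt_Pull) {D : Set Ordinal.{0}} {γ : Ordinal.{0}} (hγ : γ.cof.IsRegular)
    (hunc : ℵ₀ < γ.cof) (hD : IsClubIn D γ) :
    IsClubIn {ε | ε ∈ D ∧ ∀ δ < ε, ∃ c ∈ D, δ < c ∧ c < ε} γ := by
  refine ⟨fun ε hε => hD.1 hε.1, ?_, ?_⟩
  · intro β hβ
    obtain ⟨e, he⟩ := hSeq γ hunc.le
    obtain ⟨i, hi, hi2⟩ := he.cofinal β hβ
    have h1 := hPull γ.cof γ e D hγ he hD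
    have h2 := hTail γ.cof.ord i hi
    have h3 := hCofPts γ.cof ℵ₀ hγ Cardinal.isRegular_aleph0 hunc
    obtain ⟨k, -, hk1, hk2⟩ := (h3.and_eventually (h1.and h2)).exists
    exact ⟨e k, ⟨hk1.2, hk1.1⟩, hi2.trans (he.strict k hk2.2.1 i hk2.1)⟩
  · intro β hβ h0 h
    have h1 : ∀ δ < β, ∃ c ∈ D, δ < c ∧ c < β := by
      intro δ hδ
      obtain ⟨c, hc, hc2⟩ := h δ hδ
      exact ⟨c, hc.1, hc2⟩
    exact ⟨hD.2.2 β hβ h0 h1, h1⟩

theorem t_WSq : Stmt_Tail → Stmt_CofPts → Stmt_Seq → Stmt_Pull → Stmt_WSq := by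
  intro hTail hCofPts hSeq hPull μ θ hμ hθ hunc hne hws
  obtain ⟨Cs, hCs⟩ := hws
  have hinj : ∀ ε : Ordinal.{0}, #(Cs ε) ≤ Cardinal.lift.{1} μ →
      ∃ g : Cs ε → Set.Iio μ.ord, Function.Injective g := by
    intro ε hε
    have h1 : #(Set.Iio μ.ord) = Cardinal.lift.{1} μ := by
      rw [Cardinal.mk_Iio_ordinal, Cardinal.card_ord]
    have h2 : #(Cs ε) ≤ #(Set.Iio μ.ord) := by rwa [h1]
    obtain ⟨g⟩ := h2
    exact ⟨g, g.injective⟩
  classical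
  choose g hg using hinj
  -- the family
  let E : Ordinal.{0} → Ordinal.{0} → Set Ordinal.{0} := fun ε j =>
    if h : ∃ (hc : #(Cs ε) ≤ Cardinal.lift.{1} μ) (D : Cs ε),
      ((g ε hc D : Set.Iio μ.ord) : Ordinal.{0}) = j then ((h.choose_spec.choose : Cs ε) :
        Set Ordinal.{0}) else ∅
  have hE : ∀ (ε : Ordinal.{0}) (hc : #(Cs ε) ≤ Cardinal.lift.{1} μ) (D : Cs ε),
      E ε ((g ε hc D : Set.Iio μ.ord) : Ordinal.{0}) = D := by
    intro ε hc D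
    have hex : ∃ (hc' : #(Cs ε) ≤ Cardinal.lift.{1} μ) (D' : Cs ε),
        ((g ε hc' D' : Set.Iio μ.ord) : Ordinal.{0}) =
          ((g ε hc D : Set.Iio μ.ord) : Ordinal.{0}) := ⟨hc, D, rfl⟩
    have h1 : E ε ((g ε hc D : Set.Iio μ.ord) : Ordinal.{0}) =
        ((hex.choose_spec.choose : Cs ε) : Set Ordinal.{0}) := dif_pos hex
    have h3 := hex.choose_spec.choose_spec
    have h4 := hg ε hc (Subtype.ext h3)
    rw [h1, h4]
  have hpos : (0 : Cardinal.{1}) < Cardinal.lift.{1} μ :=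
    Cardinal.aleph0_pos.trans_le (Cardinal.aleph0_le_lift.2 hμ)
  refine ⟨fun ε j => if #(E ε j) < Cardinal.lift.{1} μ then E ε j else ∅, ?_, ?_⟩
  · intro ε j
    simp only
    split_ifs with h
    · exact h
    · rw [Cardinal.mk_eq_zero]
      exact hpos
  intro γ hγ hγc
  have hlim : IsSuccLimit γ := by
    rw [← Ordinal.one_lt_cof_iff, hγc]
    exact Cardinal.one_lt_aleph0.trans_le hθ.aleph0_le
  obtain ⟨⟨D, hD⟩, hcard, hall⟩ := hCs γ hγ hlim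
  obtain ⟨hDc, hDt, hDcoh⟩ := hall D hD
  have hcardD := WSqX.card_lt hDc hγc hne hDt
  refine ⟨_, isClubIn_acc hTail hCofPts hSeq hPull (by rw [hγc]; exact hθ)
    (by rw [hγc]; exact hunc) hDc, ?_⟩
  rintro ε ⟨hεD, hpts⟩ hεc
  have hε : ε < γ := hDc.1 hεD
  have h0 : ε ≠ 0 := by
    intro h0
    rw [h0, Ordinal.cof_zero] at hεc
    have h5 : ℵ₀ ≤ μ.ord.cof :=
      (Cardinal.isRegular_cof (Cardinal.isSuccLimit_ord hμ)).aleph0_le
    rw [← hεc] at h5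
    exact absurd h5 (not_le.2 Cardinal.aleph0_pos)
  have hlimε : IsSuccLimit ε := WSqX.limit_of_points h0 hpts
  have hmem := hDcoh ε hε h0 hpts
  have hcε : #(Cs ε) ≤ Cardinal.lift.{1} μ := (hCs ε (hε.trans hγ) hlimε).2.1
  refine ⟨(g ε hcε ⟨_, hmem⟩ : Set.Iio μ.ord), (g ε hcε ⟨_, hmem⟩).2, ?_⟩
  have h6 := hE ε hcε ⟨_, hmem⟩
  have h7 : #(E ε ((g ε hcε ⟨_, hmem⟩ : Set.Iio μ.ord) : Ordinal.{0})) <
      Cardinal.lift.{1} μ := by
    rw [h6]
    exact (Cardinal.mk_le_mk_of_subset inter_subset_left).trans_lt hcardD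
  intro α hα hαε _
  simp only
  rw [if_pos h7, h6]
  exact ⟨hα.1, hαε⟩

/-- The club version implies the principle used in the proof. -/
theorem ws_of_clubGood {μ θ : Cardinal.{0}} (hμ : ℵ₀ ≤ μ) (h : ClubGood μ θ) : WS μ θ := by
  classical
  obtain ⟨d, h1, h2⟩ := h
  have hpos : (0 : Cardinal.{1}) < Cardinal.lift.{1} μ :=
    Cardinal.aleph0_pos.trans_le (Cardinal.aleph0_le_lift.2 hμ)
  refine ⟨fun ε j => if j < μ.ord.cof.ord ∧ ε < (succ μ).ord then {α | α < ε ∧ d α ε ≤ j} else ∅,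
    ?_, ?_⟩
  · intro ε j
    simp only
    split_ifs with h
    · exact h1 j h.1 ε h.2
    · rw [Cardinal.mk_eq_zero]
      exact hpos
  · intro γ hγ hγc
    obtain ⟨D, hD, h3⟩ := h2 γ hγ hγc
    refine ⟨D, hD, fun ε hε hεc => ?_⟩
    obtain ⟨i, hi, h4⟩ := h3 ε hε hεc
    refine ⟨i, hi.trans_le (Cardinal.ord_le_ord.2 (Ordinal.cof_ord_le μ)), ?_⟩
    intro α hα hαε hαc
    simp only
    rw [if_pos ⟨hi, (hD.1 hε).trans hγ⟩]
    exact ⟨hαε, h4 α hα hαε hαc⟩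

end Pool.FAT
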