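import Pool.Agent.FAT.Stmts

/-!
MP_a44074_lc, project FAT, module Filt: the filter of closure points.
-/

set_option autoImplicit false

namespace Pool.FAT

open Ordinal Cardinal Order Set

namespace FiltX

theorem sup_lt {c : Cardinal.{0}} (hc : c.IsRegular) {s : Set Ordinal.{0}}
    (h1 : #s < Cardinal.lift.{1} c) (h2 : ∀ i ∈ s, i < c.ord) : sSup s < c.ord := by
  apply sSup_lt_of_lt_cof _ h2
  rw [← lift_cof, hc.cof_ord]
  exact h1

theorem le_sup {c : Cardinal.{0}} {s : Set Ordinal.{0}} (h2 : ∀ i ∈ s, i < c.ord) {x : Ordinal.{0}}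
    (hx : x ∈ s) : x ≤ sSup s :=
  le_csSup ⟨c.ord, fun i hi => (h2 i hi).le⟩ hx

theorem mk_Iic_lt {c : Cardinal.{0}} (hc : c.IsRegular) {b : Ordinal.{0}} (hb : b < c.ord) :
    #(Set.Iic b) < Cardinal.lift.{1} c := by
  have h1 : succ b < c.ord := (isSuccLimit_ord hc.aleph0_le).succ_lt hb
  have h2 : Set.Iic b = Set.Iio (succ b) := by
    ext x
    simp
  rw [h2, Cardinal.mk_Iio_ordinal, Cardinal.lift_lt]
  exact lt_ord.1 h1

end FiltX

open FiltX

theorem t_Tail : Stmt_Tail := by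
  intro o β hβ
  rw [eventually_CF]
  refine ⟨fun _ => β, fun _ _ => hβ, fun η hη => ⟨?_, hη.1, hη.2.1⟩⟩
  refine hη.2.2 0 ?_
  exact hη.2.1.bot_lt

theorem t_Mono : Stmt_Mono := by
  intro c hc P hP
  rw [eventually_CF] at hP
  obtain ⟨h, h1, h2⟩ := hP
  have key : ∀ b, ∀ x ∈ h '' (Set.Iic b ∩ Set.Iio c.ord), x < c.ord := by
    rintro b _ ⟨a, ⟨_, ha⟩, rfl⟩
    exact h1 a ha
  refine ⟨fun b => sSup (h '' (Set.Iic b ∩ Set.Iio c.ord)), ?_, ?_, ?_⟩
  · intro η hη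
    apply sup_lt hc _ (key η)
    exact (mk_image_le.trans (mk_le_mk_of_subset Set.inter_subset_left)).trans_lt (mk_Iic_lt hc hη)
  · intro a b hab
    apply csSup_le_csSup' ⟨c.ord, fun i hi => (key b i hi).le⟩
    apply Set.image_mono
    exact fun x hx => ⟨le_trans hx.1 hab, hx.2⟩
  · intro η hη
    apply h2 η
    refine ⟨hη.1, hη.2.1, fun η' hη' => ?_⟩
    exact (le_sup (key η') ⟨η', ⟨le_refl η', hη'.trans hη.1⟩, rfl⟩).trans_lt (hη.2.2 η' hη')

theorem t_Compl : Stmt_Compl := by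
  intro c hc ι hι P hP
  have hP' : ∀ i, ∃ h : Ordinal.{0} → Ordinal.{0}, (∀ η < c.ord, h η < c.ord) ∧
      ∀ η ∈ CP c.ord h, P i η := fun i => eventually_CF.1 (hP i)
  choose h h1 h2 using hP'
  rw [eventually_CF]
  have key : ∀ η < c.ord, ∀ x ∈ Set.range (fun i => h i η), x < c.ord := by
    rintro η hη _ ⟨i, rfl⟩
    exact h1 i η hη
  refine ⟨fun η => sSup (Set.range fun i => h i η), ?_, ?_⟩
  · intro η hη
    exact sup_lt hc (mk_range_le.trans_lt hι) (key η hη)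
  · intro η hη i
    apply h2 i η
    refine ⟨hη.1, hη.2.1, fun η' hη' => ?_⟩
    exact (le_sup (key η' (hη'.trans hη.1)) ⟨i, rfl⟩).trans_lt (hη.2.2 η' hη')

theorem t_Diag : Stmt_Diag := by
  classical
  intro c hc P hP
  have hP' : ∀ i, ∃ h : Ordinal.{0} → Ordinal.{0}, (∀ η < c.ord, h η < c.ord) ∧
      (i < c.ord → ∀ η ∈ CP c.ord h, P i η) := by
    intro i
    by_cases hi : i < c.ord
    · obtain ⟨h, h1, h2⟩ := eventually_CF.1 (hP i hi)
      exact ⟨h, h1, fun _ => h2⟩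
    · exact ⟨id, fun η hη => hη, fun h => absurd h hi⟩
  choose h h1 h2 using hP'
  rw [eventually_CF]
  let T : Ordinal.{0} → Set Ordinal.{0} := fun m =>
    (fun x : Ordinal.{0} × Ordinal.{0} => h x.1 x.2) '' (Set.Iic m ×ˢ Set.Iic m)
  have key : ∀ m < c.ord, ∀ x ∈ T m, x < c.ord := by
    rintro m hm _ ⟨⟨i, η'⟩, ⟨_, hη'⟩, rfl⟩
    exact h1 i η' (lt_of_le_of_lt hη' hm)
  refine ⟨fun m => sSup (T m), ?_, ?_⟩
  · intro m hm
    refine sup_lt hc ?_ (key m hm)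
    refine mk_image_le.trans_lt ?_
    rw [mk_setProd]
    exact mul_lt_of_lt (by simpa using hc.aleph0_le) (mk_Iic_lt hc hm) (mk_Iic_lt hc hm)
  · intro η hη i hi
    apply h2 i (hi.trans hη.1) η
    refine ⟨hη.1, hη.2.1, fun η' hη' => ?_⟩
    have hm : max i η' < η := max_lt hi hη'
    refine (le_sup (key (max i η') (hm.trans hη.1)) ?_).trans_lt (hη.2.2 _ hm)
    exact ⟨(i, η'), ⟨le_max_left i η', le_max_right i η'⟩, rfl⟩

theorem t_Fodor : Stmt_Fodor := by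
  intro c hc P f hf
  by_contra hcon
  push Not at hcon
  have h1 : ∀ᶠ η in CF c.ord, ∀ i < η, ¬ (P η ∧ f η = i) := by
    apply t_Diag c hc
    intro i hi
    exact Filter.not_frequently.1 (by simpa using hcon i hi)
  obtain ⟨η, ⟨hP, hlt⟩, h2⟩ := (hf.and_eventually h1).exists
  exact h2 (f η) hlt ⟨hP, rfl⟩

end Pool.FAT
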