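import Pool.Agent.FAT.Stmts

/-!
MP_a44074_lc, project FAT, module Lift: transfer between the filters and clubs.
-/

set_option autoImplicit false

namespace Pool.FAT

open Ordinal Cardinal Order Set

namespace LiftX

/-- a nonzero ordinal with elements strictly between is a limit -/
theorem lim_of {β : Ordinal.{0}} (h0 : β ≠ 0) (h : ∀ δ < β, ∃ c, δ < c ∧ c < β) :
    IsSuccLimit β := by
  rw [Ordinal.isSuccLimit_iff]
  refine ⟨h0, isSuccPrelimit_of_succ_lt fun a ha => ?_⟩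
  obtain ⟨c, h1, h2⟩ := h a ha
  exact (succ_le_of_lt h1).trans_lt h2

theorem ne_zero_of_lt' {a b : Ordinal.{0}} (h : a < b) : b ≠ 0 :=
  (lt_of_le_of_lt (bot_le : (0 : Ordinal.{0}) ≤ a) h).ne'

theorem NSeq_between {o ξ : Ordinal.{0}} {e : Ordinal.{0} → Ordinal.{0}} (H : NSeq o ξ e)
    {k : Ordinal.{0}} (hk : k < o) (hl : IsSuccLimit k) {β : Ordinal.{0}} (hβ : β < e k) :
    ∃ i < k, β < e i ∧ e i < e k := by
  obtain ⟨i, h1, h2⟩ := H.cont k hk hl β hβ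
  exact ⟨i, h1, h2, H.strict k hk i h1⟩

theorem NSeq_lim {o ξ : Ordinal.{0}} {e : Ordinal.{0} → Ordinal.{0}} (H : NSeq o ξ e)
    {k : Ordinal.{0}} (hk : k < o) (hl : IsSuccLimit k) : IsSuccLimit (e k) := by
  have h0 : (0 : Ordinal.{0}) < k := hl.bot_lt
  refine lim_of (ne_zero_of_lt' (H.strict k hk 0 h0)) fun δ hδ => ?_
  obtain ⟨i, _, h2, h3⟩ := NSeq_between H hk hl hδ
  exact ⟨e i, h2, h3⟩

end LiftX

open LiftX

theorem t_Lift : Stmt_Mono → Stmt_Lift := by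
  intro hM c κ hc hκ _ P hP
  obtain ⟨h, h1, h2, h3⟩ := hM c hc P hP
  rw [eventually_CF]
  refine ⟨h, h1, fun ξ hξ e he => ?_⟩
  have hKl : IsSuccLimit κ.ord := isSuccLimit_ord hκ.aleph0_le
  have hex : ∀ i : Ordinal.{0}, ∃ j : Ordinal.{0}, i < κ.ord → j < κ.ord ∧ h (e i) < e j := by
    intro i
    by_cases hi : i < κ.ord
    · obtain ⟨j, hj, hj'⟩ := he.cofinal (h (e i)) (hξ.2.2 (e i) (he.lt i hi))
      exact ⟨j, fun _ => ⟨hj, hj'⟩⟩
    · exact ⟨0, fun hi' => absurd hi' hi⟩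
  choose J hJ using hex
  rw [eventually_CF]
  refine ⟨J, fun i hi => (hJ i hi).1, fun k hk => ?_⟩
  obtain ⟨k1, k2, k3⟩ := hk
  refine h3 (e k) ⟨(he.lt k k1).trans hξ.1, NSeq_lim he k1 k2, fun η' hη' => ?_⟩
  obtain ⟨i, i1, i2⟩ := he.cont k k1 k2 η' hη'
  exact (h2 _ _ i2.le).trans_lt ((hJ i (i1.trans k1)).2.trans (he.strict k k1 _ (k3 i i1)))

theorem t_Pull : Stmt_Pull := by
  intro c ξ φ C hc H hC
  have hex : ∀ η : Ordinal.{0}, ∃ j : Ordinal.{0}, η < c.ord → j < c.ord ∧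
      ∃ c' ∈ C, φ η < c' ∧ c' < φ j := by
    intro η
    by_cases hη : η < c.ord
    · obtain ⟨c', hc', h1⟩ := hC.2.1 (φ η) (H.lt η hη)
      obtain ⟨j, hj, hj'⟩ := H.cofinal c' (hC.1 hc')
      exact ⟨j, fun _ => ⟨hj, c', hc', h1, hj'⟩⟩
    · exact ⟨0, fun hη' => absurd hη' hη⟩
  choose J hJ using hex
  rw [eventually_CF]
  refine ⟨J, fun η hη => (hJ η hη).1, fun η hη => ?_⟩
  obtain ⟨k1, k2, k3⟩ := hη
  have key : ∀ δ < φ η, ∃ c' ∈ C, δ < c' ∧ c' < φ η := by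
    intro δ hδ
    obtain ⟨i, i1, i2⟩ := H.cont η k1 k2 δ hδ
    obtain ⟨_, c', hc', h1, h2⟩ := hJ i (i1.trans k1)
    exact ⟨c', hc', i2.trans h1, h2.trans (H.strict η k1 _ (k3 i i1))⟩
  refine ⟨key, hC.2.2 (φ η) (H.lt η k1) ?_ key⟩
  exact ne_zero_of_lt' (H.strict η k1 0 k2.bot_lt)

theorem t_StatCF : Stmt_Mono → Stmt_StatCF := by
  intro hM c hc hunc S hS
  by_contra hcon
  rw [Filter.not_frequently] at hcon
  obtain ⟨h, h1, h2, h3⟩ := hM c hc (fun k => k ∉ S) hcon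
  have hcl : IsSuccLimit c.ord := isSuccLimit_ord hc.aleph0_le
  have hclub : IsClubIn (CP c.ord h) c.ord := by
    refine ⟨fun η hη => hη.1, ?_, ?_⟩
    · intro β hβ
      let g : ℕ → Ordinal.{0} := fun n => Nat.rec (succ β) (fun _ x => succ (max x (h x))) n
      have g0 : g 0 = succ β := rfl
      have gs : ∀ n, g (n + 1) = succ (max (g n) (h (g n))) := fun n => rfl
      have glt : ∀ n, g n < c.ord := by
        intro n
        induction n with
        | zero => rw [g0]; exact hcl.succ_lt hβ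
        | succ n ih => rw [gs]; exact hcl.succ_lt (max_lt ih (h1 _ ih))
      have hstep : ∀ n, g n < g (n + 1) ∧ h (g n) < g (n + 1) := by
        intro n
        rw [gs]
        exact ⟨lt_succ_of_le (le_max_left _ _), lt_succ_of_le (le_max_right _ _)⟩
      have hle : ∀ n, g n ≤ iSup g := fun n => Ordinal.le_iSup g n
      have hsup : iSup g < c.ord := by
        apply Ordinal.iSup_lt_of_lt_cof _ glt
        rw [hc.cof_ord]
        simpa using hunc
      have hb : ∀ δ < iSup g, ∃ n, δ < g n := fun δ hδ => Ordinal.lt_iSup_iff.1 hδ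
      have hpos : succ β ≤ iSup g := hle 0
      refine ⟨iSup g, ⟨hsup, lim_of (ne_zero_of_lt' (succ_le_iff.1 hpos)) ?_, ?_⟩,
        succ_le_iff.1 hpos⟩
      · intro δ hδ
        obtain ⟨n, hn⟩ := hb δ hδ
        exact ⟨g n, hn, (hstep n).1.trans_le (hle (n + 1))⟩
      · intro δ hδ
        obtain ⟨n, hn⟩ := hb δ hδ
        exact (h2 _ _ hn.le).trans_lt ((hstep n).2.trans_le (hle (n + 1)))
    · intro β hβ h0 hβ'
      refine ⟨hβ, lim_of h0 fun δ hδ => ?_, fun δ hδ => ?_⟩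
      · obtain ⟨c', _, h4, h5⟩ := hβ' δ hδ
        exact ⟨c', h4, h5⟩
      · obtain ⟨c', hc', h4, h5⟩ := hβ' δ hδ
        exact (hc'.2.2 δ h4).trans h5
  obtain ⟨k, hk, hkS⟩ := hS _ hclub
  exact h3 k hk hkS

end Pool.FAT
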