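import Pool.Agent.FAT.Stmts

/-!
MP_a44074_lc, project FAT: transitive filtrations and their rank functions.
-/

set_option autoImplicit false

namespace Pool.FAT

open Ordinal Cardinal Order Set

namespace TransX

/-- one step -/
def R (S : Ordinal.{0} → Set Ordinal.{0}) (a b : Ordinal.{0}) : Prop := a < b ∧ a ∈ S b

/-- the transitive closure -/
def clo (S : Ordinal.{0} → Set Ordinal.{0}) (b : Ordinal.{0}) : Set Ordinal.{0} :=
  {a | Relation.TransGen (R S) a b}

theorem clo_sub (S : Ordinal.{0} → Set Ordinal.{0}) (b : Ordinal.{0}) : clo S b ⊆ Set.Iio b := by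
  intro a ha
  change Relation.TransGen (R S) a b at ha
  induction ha with
  | single h => exact h.1
  | tail _ h ih => exact lt_trans (show a < _ from ih) h.1

theorem clo_eq (S : Ordinal.{0} → Set Ordinal.{0}) (b : Ordinal.{0}) :
    clo S b ⊆ (S b ∩ Set.Iio b) ∪ ⋃ c : (S b ∩ Set.Iio b : Set Ordinal.{0}), clo S c.1 := by
  intro a ha
  rcases Relation.TransGen.tail'_iff.1 ha with ⟨c, h1, h2⟩
  rcases (Relation.reflTransGen_iff_eq_or_transGen.1 h1) with h3 | h3
  · subst h3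
    exact Or.inl ⟨h2.2, h2.1⟩
  · exact Or.inr (mem_iUnion.2 ⟨⟨c, h2.2, h2.1⟩, h3⟩)

theorem card_clo (S : Ordinal.{0} → Set Ordinal.{0}) (c : Cardinal.{1}) (hc : ℵ₀ ≤ c)
    (o : Ordinal.{0}) (h : ∀ b < o, #(S b) ≤ c) : ∀ b < o, #(clo S b) ≤ c := by
  intro b
  induction b using WellFoundedLT.induction with
  | ind b ih =>
    intro hb
    have h1 : #(S b ∩ Set.Iio b : Set Ordinal.{0}) ≤ c :=
      (mk_le_mk_of_subset inter_subset_left).trans (h b hb)
    have h2 : #(⋃ d : (S b ∩ Set.Iio b : Set Ordinal.{0}), clo S d.1) ≤ c := by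
      refine (mk_iUnion_le _).trans ?_
      refine (mul_le_mul' h1 (ciSup_le' fun d => ?_)).trans (mul_eq_self hc).le
      exact ih d.1 d.2.2 (lt_trans d.2.2 hb)
    refine (mk_le_mk_of_subset (clo_eq S b)).trans ((mk_union_le _ _).trans ?_)
    exact (add_le_add h1 h2).trans (add_eq_self hc).le

theorem exists_inj (lam : Cardinal.{0}) (b : Ordinal.{0}) (hb : b < (succ lam).ord) :
    ∃ f : Ordinal.{0} → Ordinal.{0}, (∀ a < b, f a < lam.ord) ∧
      ∀ a < b, ∀ a' < b, f a = f a' → a = a' := by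
  have h1 : b.card ≤ lam := lt_succ_iff.1 (Cardinal.lt_ord.1 hb)
  have h2 : #(Set.Iio b) ≤ #(Set.Iio lam.ord) := by
    rw [Cardinal.mk_Iio_ordinal, Cardinal.mk_Iio_ordinal, Cardinal.card_ord]
    exact Cardinal.lift_le.2 h1
  obtain ⟨g⟩ := h2
  classical
  refine ⟨fun a => if h : a < b then (g ⟨a, h⟩).1 else 0, ?_, ?_⟩
  · intro a ha
    simp only [dif_pos ha]
    exact (g ⟨a, ha⟩).2
  · intro a ha a' ha' e
    simp only [dif_pos ha, dif_pos ha'] at e
    have h3 := g.injective (Subtype.ext e)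
    exact congrArg Subtype.val h3

/-- the rank function of a relation contained in `<` -/
noncomputable def rk (A : Ordinal.{0} → Set Ordinal.{0}) (b : Ordinal.{0}) : Ordinal.{0} :=
  ⨆ a : (A b ∩ Set.Iio b : Set Ordinal.{0}), rk A a.1 + 1
termination_by b
decreasing_by exact a.2.2

instance small_aux (S : Set Ordinal.{0}) (b : Ordinal.{0}) :
    Small.{0} (S ∩ Set.Iio b : Set Ordinal.{0}) :=
  small_subset (inter_subset_right : S ∩ Set.Iio b ⊆ Set.Iio b)

theorem rk_lt (A : Ordinal.{0} → Set Ordinal.{0}) {a b : Ordinal.{0}} (h1 : a ∈ A b)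
    (h2 : a < b) : rk A a < rk A b := by
  rw [rk.eq_1 A b]
  refine lt_of_lt_of_le (Order.lt_add_one_iff.2 le_rfl)
    (Ordinal.le_iSup (fun a : (A b ∩ Set.Iio b : Set Ordinal.{0}) => rk A a.1 + 1) ⟨a, h1, h2⟩)

theorem rk_bd (A : Ordinal.{0} → Set Ordinal.{0}) (c : Cardinal.{0}) (hc : ℵ₀ ≤ c)
    (o : Ordinal.{0}) (h : ∀ b < o, #(A b) ≤ Cardinal.lift.{1} c) :
    ∀ b < o, rk A b < (succ c).ord := by
  intro b
  induction b using WellFoundedLT.induction with
  | ind b ih =>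
    intro hb
    rw [rk.eq_1 A b]
    refine Ordinal.lift_iSup_add_one_lt_of_lt_cof ?_ ?_
    · have h1 : #(A b ∩ Set.Iio b : Set Ordinal.{0}) ≤ Cardinal.lift.{1} c :=
        (mk_le_mk_of_subset inter_subset_left).trans (h b hb)
      rw [← Ordinal.lift_cof, (isRegular_succ hc).cof_ord]
      rw [Cardinal.lift_id'.{0, 1}]
      exact lt_of_le_of_lt h1 (Cardinal.lift_lt.2 (lt_succ c))
    · intro d
      exact ih d.1 d.2.2 (lt_trans d.2.2 hb)

end TransX

theorem t_Trans : Stmt_Trans := by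
  intro lam κ μ X h1 h2 h3 h4 h5 h6
  have h7 : ∀ b : Ordinal.{0}, ∃ f : Ordinal.{0} → Ordinal.{0}, b < (succ lam).ord →
      (∀ a < b, f a < lam.ord) ∧ ∀ a < b, ∀ a' < b, f a = f a' → a = a' := by
    intro b
    by_cases hb : b < (succ lam).ord
    · obtain ⟨f, hf⟩ := TransX.exists_inj lam b hb
      exact ⟨f, fun _ => hf⟩
    · exact ⟨id, fun h => absurd h hb⟩
  choose f hf using h7
  let S : Ordinal.{0} → Ordinal.{0} → Set Ordinal.{0} :=
    fun k b => X b ∪ {a | a < b ∧ f b a < (μ k).ord}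
  refine ⟨fun b k => TransX.clo (S k) b, ?_, ?_, ?_, ?_, ?_, ?_⟩
  · intro b k
    exact TransX.clo_sub _ _
  · intro b hb k hk a ha
    exact Relation.TransGen.single ⟨(h6 b hb).1 ha, Or.inl ha⟩
  · intro b hb i j hij hj a ha
    have e0 : ∀ c d, TransX.R (S i) c d → TransX.R (S j) c d := by
      rintro c d ⟨e1, e2⟩
      refine ⟨e1, e2.imp id fun e3 => ⟨e3.1, lt_of_lt_of_le e3.2 ?_⟩⟩
      exact Cardinal.ord_le_ord.2 (h3 i j hij hj)
    exact Relation.TransGen.lift id e0 _ _ ha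
  · intro b hb a ha
    have e1 := (hf b hb).1 a ha
    obtain ⟨k, hk, e2⟩ := h5 _ (Cardinal.lt_ord.1 e1)
    exact ⟨k, hk, Relation.TransGen.single ⟨ha, Or.inr ⟨ha, Cardinal.lt_ord.2 e2⟩⟩⟩
  · intro b hb k hk
    have hc : ℵ₀ ≤ Cardinal.lift.{1} (μ k) := by
      rw [Cardinal.aleph0_le_lift]
      exact h4 k hk
    refine TransX.card_clo (S k) _ hc _ ?_ b hb
    intro b hb
    refine (mk_union_le _ _).trans ?_
    refine (add_le_add ((h6 b hb).2 k hk) ?_).trans (add_eq_self hc).le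
    have e1 : #(Set.Iio (μ k).ord) = Cardinal.lift.{1} (μ k) := by
      rw [Cardinal.mk_Iio_ordinal, Cardinal.card_ord]
    rw [← e1]
    refine Cardinal.mk_le_of_injective
      (f := fun a : {a | a < b ∧ f b a < (μ k).ord} => (⟨f b a.1, a.2.2⟩ : Set.Iio (μ k).ord)) ?_
    intro x y hxy
    exact Subtype.ext ((hf b hb).2 x.1 x.2.1 y.1 y.2.1 (congrArg Subtype.val hxy))
  · intro b hb k hk a ha c hc
    exact Relation.TransGen.trans hc ha

theorem t_Rank : Stmt_Rank := by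
  intro lam κ μ X A h1 hA
  refine ⟨fun b k => TransX.rk (fun a => A a k) b, ?_, ?_⟩
  · intro b hb k hk
    exact TransX.rk_bd (fun a => A a k) (μ k) (h1 k hk) _ (fun b hb => hA.card b hb k hk) b hb
  · intro b hb a ha
    obtain ⟨k₀, hk₀, h2⟩ := hA.union b hb a ha
    refine ⟨k₀, hk₀, fun k h3 h4 => ?_⟩
    exact TransX.rk_lt (fun a => A a k) (hA.mono b hb k₀ k h3 h4 h2) ha

end Pool.FAT
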