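import Pool.Agent.FAT.Stmts

/-!
MP_a44074_lc, project FAT, module XCard: the sets `XX` are small.
-/

set_option autoImplicit false

namespace Pool.FAT

open Ordinal Cardinal Order Set

namespace XCardX

/-- The set of values which can be caught. -/
def YY (C : Ordinal.{0} → Ordinal.{0} → Ordinal.{0} → Set Ordinal.{0}) (ρ : Cardinal.{0})
    (k x : Ordinal.{0}) : Set Ordinal.{0} :=
  {y | ∃ j < ρ.ord, #(C k x j) ≤ Cardinal.lift.{1} ρ ∧ y ∈ C k x j}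

theorem mk_YY_le (C : Ordinal.{0} → Ordinal.{0} → Ordinal.{0} → Set Ordinal.{0})
    {ρ : Cardinal.{0}} (hρ : ℵ₀ ≤ ρ) (k x : Ordinal.{0}) :
    #(YY C ρ k x) ≤ Cardinal.lift.{1} ρ := by
  have h0 : ℵ₀ ≤ Cardinal.lift.{1} ρ := by
    rwa [Cardinal.aleph0_le_lift]
  have h1 : YY C ρ k x ⊆ ⋃ j : Set.Iio ρ.ord,
      {y | #(C k x j) ≤ Cardinal.lift.{1} ρ ∧ y ∈ C k x j} := by
    rintro y ⟨j, hj, hy⟩
    exact Set.mem_iUnion.2 ⟨⟨j, hj⟩, hy⟩
  refine (mk_le_mk_of_subset h1).trans ((mk_iUnion_le _).trans ?_)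
  have h2 : #(Set.Iio ρ.ord) = Cardinal.lift.{1} ρ := by
    rw [Cardinal.mk_Iio_ordinal, card_ord]
  rw [h2]
  refine (mul_le_mul_right (ciSup_le' ?_) _).trans (mul_eq_self h0).le
  rintro ⟨j, hj⟩
  by_cases hc : #(C k x j) ≤ Cardinal.lift.{1} ρ
  · exact (mk_le_mk_of_subset (fun y hy => hy.2)).trans hc
  · have : {y | #(C k x j) ≤ Cardinal.lift.{1} ρ ∧ y ∈ C k x j} = ∅ := by
      ext y
      simp [hc]
    simp [this]

theorem exists_code (C : Ordinal.{0} → Ordinal.{0} → Ordinal.{0} → Set Ordinal.{0})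
    {ρ : Cardinal.{0}} (hρ : ℵ₀ ≤ ρ) (k x : Ordinal.{0}) :
    ∃ g : Ordinal.{0} → Ordinal.{0}, (∀ y ∈ YY C ρ k x, g y < ρ.ord) ∧
      ∀ y ∈ YY C ρ k x, ∀ y' ∈ YY C ρ k x, g y = g y' → y = y' := by
  classical
  have h2 : #(Set.Iio ρ.ord) = Cardinal.lift.{1} ρ := by
    rw [Cardinal.mk_Iio_ordinal, card_ord]
  have h3 : #(YY C ρ k x) ≤ #(Set.Iio ρ.ord) := by
    rw [h2]
    exact mk_YY_le C hρ k x
  obtain ⟨f⟩ := h3
  refine ⟨fun y => if h : y ∈ YY C ρ k x then (f ⟨y, h⟩ : Ordinal.{0}) else 0, ?_, ?_⟩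
  · intro y hy
    simp only [hy, dif_pos]
    exact (f ⟨y, hy⟩).2
  · intro y hy y' hy' h
    simp only [hy, hy', dif_pos] at h
    have := f.injective (Subtype.ext h)
    exact congrArg Subtype.val this

end XCardX

open XCardX

theorem t_XCard : Stmt_Count → Stmt_XCard := by
  intro hcount lam κ θ μ F G C hctx hG ν hν δ hδ
  have hρ : ℵ₀ ≤ μ ν := hctx.treg.aleph0_le.trans (hctx.base ν hν)
  have hκ : ℵ₀ ≤ κ := hctx.kreg.aleph0_le
  choose g hg1 hg2 using fun k : Ordinal.{0} => exists_code C hρ k (G δ k)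
  have key : ∀ a ∈ XX κ μ G C ν δ, ∀ a' ∈ XX κ μ G C ν δ, a < a' →
      ∀ᶠ k in CF κ.ord, G a k ≠ G a' k := by
    intro a ha a' ha' hlt
    exact (hG.lt a' (ha'.1.trans hδ) a hlt ha.2.1 ha'.2.1).mono fun k hk => hk.ne
  refine hcount κ (μ ν) (XX κ μ G C ν δ)
    (fun a => {k | G a k ∈ YY C (μ ν) k (G δ k)})
    (fun a k => g k (G a k)) hκ hρ ?_ ?_ ?_
  · rintro ⟨a, ha⟩
    refine ha.2.2.mono ?_
    rintro k ⟨j, hj, h1, h2⟩
    exact ⟨j, hj, h1, h2⟩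
  · rintro ⟨a, ha⟩ k hk
    exact hg1 k _ hk
  · rintro ⟨a, ha⟩ ⟨a', ha'⟩ hne
    have hne' : a ≠ a' := fun h => hne (Subtype.ext h)
    have h1 : ∀ᶠ k in CF κ.ord, G a k ≠ G a' k := by
      rcases lt_or_gt_of_ne hne' with h | h
      · exact key a ha a' ha' h
      · exact (key a' ha' a ha h).mono fun k hk => hk.symm
    refine h1.mono ?_
    rintro k hk ⟨h2, h3, h4⟩
    exact hk (hg2 k _ h2 _ h3 h4)

end Pool.FAT
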