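import Pool.Agent.FAT.Stmts

/-!
MP_a44074_lc, project FAT, module FAT_Chain: the interleaved sequences.
-/

set_option autoImplicit false

namespace Pool.FAT

open Ordinal Cardinal Order Set

namespace ChainX

theorem sup_lt {c : Cardinal.{0}} (hc : c.IsRegular) {b : Ordinal.{0}} (hb : b < c.ord)
    (f : Set.Iio b → Ordinal.{0}) (hf : ∀ i, f i < c.ord) : (⨆ i, f i) < c.ord := by
  apply Ordinal.lift_iSup_lt_of_lt_cof _ hf
  rw [← lift_cof, hc.cof_ord, Cardinal.mk_Iio_ordinal, Cardinal.lift_lift, Cardinal.lift_lt]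
  exact lt_ord.1 hb

/-- The interleaved recursion. -/
noncomputable def sq (N : Ordinal.{0} → (Ordinal.{0} → Ordinal.{0}) → Ordinal.{0})
    (F : Ordinal.{0} → Ordinal.{0} → Ordinal.{0}) (η : Ordinal.{0}) :
    Ordinal.{0} × (Ordinal.{0} → Ordinal.{0}) :=
  (⨆ i : Set.Iio η, N (sq N F i.1).1 (sq N F i.1).2,
    fun k => ⨆ i : Set.Iio η, succ (max ((sq N F i.1).2 k) (F (sq N F i.1).1 k)))
termination_by η
decreasing_by all_goals exact i.2

section

variable (N : Ordinal.{0} → (Ordinal.{0} → Ordinal.{0}) → Ordinal.{0})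
  (F : Ordinal.{0} → Ordinal.{0} → Ordinal.{0})

theorem sq_fst (η : Ordinal.{0}) :
    (sq N F η).1 = ⨆ i : Set.Iio η, N (sq N F i.1).1 (sq N F i.1).2 := by
  rw [sq]

theorem sq_snd (η k : Ordinal.{0}) :
    (sq N F η).2 k =
      ⨆ i : Set.Iio η, succ (max ((sq N F i.1).2 k) (F (sq N F i.1).1 k)) := by
  rw [sq]

theorem le_fst {i η : Ordinal.{0}} (h : i < η) :
    N (sq N F i).1 (sq N F i).2 ≤ (sq N F η).1 := by
  rw [sq_fst N F η]
  exact Ordinal.le_iSup (fun i : Set.Iio η => N (sq N F i.1).1 (sq N F i.1).2) ⟨i, h⟩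

theorem lt_fst {β η : Ordinal.{0}} (h : β < (sq N F η).1) :
    ∃ i < η, β < N (sq N F i).1 (sq N F i).2 := by
  rw [sq_fst N F η, Ordinal.lt_iSup_iff] at h
  obtain ⟨i, hi⟩ := h
  exact ⟨i.1, i.2, hi⟩

theorem lt_snd_of {i η : Ordinal.{0}} (k : Ordinal.{0}) (h : i < η) :
    max ((sq N F i).2 k) (F (sq N F i).1 k) < (sq N F η).2 k := by
  refine lt_of_lt_of_le (lt_succ _) ?_
  rw [sq_snd N F η]
  exact Ordinal.le_iSup
    (fun i : Set.Iio η => succ (max ((sq N F i.1).2 k) (F (sq N F i.1).1 k))) ⟨i, h⟩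

theorem lt_snd {β η k : Ordinal.{0}} (h : β < (sq N F η).2 k) :
    ∃ i < η, β ≤ max ((sq N F i).2 k) (F (sq N F i).1 k) := by
  rw [sq_snd N F η, Ordinal.lt_iSup_iff] at h
  obtain ⟨i, hi⟩ := h
  exact ⟨i.1, i.2, lt_succ_iff.1 hi⟩

end

theorem succ_lt_ord {c : Cardinal.{0}} (hc : ℵ₀ ≤ c) {a : Ordinal.{0}} (ha : a < c.ord) :
    succ a < c.ord :=
  (Cardinal.isSuccLimit_ord hc).succ_lt ha

end ChainX

open ChainX in
theorem t_Chain : Stmt_Tail → Stmt_Cofinal → Stmt_Chain := by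
  intro tT tC lam κ θ μ F hx hs h hh
  have kpos : (0 : Ordinal.{0}) < κ.ord := hx.kreg.ord_pos
  have hth : ℵ₀ ≤ θ := hx.treg.aleph0_le
  have hmu : ∀ k < κ.ord, ℵ₀ ≤ μ k := fun k hk => hth.trans (hx.base k hk)
  have hlam : ℵ₀ ≤ lam := (hmu 0 kpos).trans (hx.lt 0 kpos).le
  have rL : (succ lam).IsRegular := isRegular_succ hlam
  have rM : ∀ k < κ.ord, (succ (μ k)).IsRegular := fun k hk => isRegular_succ (hmu k hk)
  have tL : θ.ord < (succ lam).ord := by
    rw [ord_lt_ord]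
    exact ((hx.base 0 kpos).trans_lt (hx.lt 0 kpos)).trans (lt_succ _)
  have tM : ∀ k < κ.ord, θ.ord < (succ (μ k)).ord := by
    intro k hk
    rw [ord_lt_ord]
    exact (hx.base k hk).trans_lt (lt_succ _)
  -- the bounding function
  have ex : ∀ (d : Ordinal.{0}) (c : Ordinal.{0} → Ordinal.{0}), d < (succ lam).ord →
      (∀ k < κ.ord, c k < (succ (μ k)).ord) →
      ∃ n : Ordinal.{0}, n < (succ lam).ord ∧ d < n ∧ (∀ b ≤ d, h b < n) ∧
        ∃ a < n, ∀ᶠ k in CF κ.ord, c k < F a k := by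
    intro d c hd hc
    obtain ⟨a, haL, ha⟩ := tC lam κ θ μ F hx hs c hc
    have hsd : succ d < (succ lam).ord := succ_lt_ord rL.aleph0_le hd
    refine ⟨max (max (succ d) (succ a)) (⨆ b : Set.Iio (succ d), succ (h b.1)), ?_, ?_, ?_, ?_⟩
    · refine max_lt (max_lt hsd (succ_lt_ord rL.aleph0_le haL)) ?_
      refine sup_lt rL hsd _ ?_
      intro i
      exact succ_lt_ord rL.aleph0_le (hh _ ((show i.1 < succ d from i.2).trans hsd))
    · exact (lt_succ d).trans_le ((le_max_left _ _).trans (le_max_left _ _))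
    · intro b hb
      refine lt_of_lt_of_le (lt_succ (h b)) (le_trans ?_ (le_max_right _ _))
      exact Ordinal.le_iSup (fun b : Set.Iio (succ d) => succ (h b.1)) ⟨b, lt_succ_iff.2 hb⟩
    · exact ⟨a, (lt_succ a).trans_le ((le_max_right _ _).trans (le_max_left _ _)), ha⟩
  choose! N hN using ex
  -- bounds
  have bd : ∀ η : Ordinal.{0}, η ≤ θ.ord → (sq N F η).1 < (succ lam).ord ∧
      ∀ k < κ.ord, (sq N F η).2 k < (succ (μ k)).ord := by
    intro η
    induction η using WellFoundedLT.induction with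
    | ind η ih =>
      intro hη
      constructor
      · rw [sq_fst]
        refine sup_lt rL (hη.trans_lt tL) _ ?_
        intro i
        have hi : i.1 < η := i.2
        have h1 := ih i.1 hi (hi.le.trans hη)
        exact (hN _ _ h1.1 h1.2).1
      · intro k hk
        rw [sq_snd]
        refine sup_lt (rM k hk) (hη.trans_lt (tM k hk)) _ ?_
        intro i
        have hi : i.1 < η := i.2
        have h1 := ih i.1 hi (hi.le.trans hη)
        exact succ_lt_ord (rM k hk).aleph0_le (max_lt (h1.2 k hk) (hs.lt _ h1.1 k hk))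
  have nn : ∀ i < θ.ord, N (sq N F i).1 (sq N F i).2 < (succ lam).ord ∧
      (sq N F i).1 < N (sq N F i).1 (sq N F i).2 ∧
      (∀ b ≤ (sq N F i).1, h b < N (sq N F i).1 (sq N F i).2) ∧
      ∃ a < N (sq N F i).1 (sq N F i).2, ∀ᶠ k in CF κ.ord, (sq N F i).2 k < F a k :=
    fun i hi => hN _ _ (bd i hi.le).1 (bd i hi.le).2
  have tlim : IsSuccLimit θ.ord := Cardinal.isSuccLimit_ord hth
  have fstr : ∀ i < θ.ord, ∀ η, i < η → (sq N F i).1 < (sq N F η).1 :=
    fun i hi η hη => (nn i hi).2.1.trans_le (le_fst N F hη)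
  have fcon : ∀ i, IsSuccLimit i → ∀ β < (sq N F i).1, ∃ i' < i, β < (sq N F i').1 := by
    intro i hl β hβ
    obtain ⟨j, hj, hj'⟩ := lt_fst N F hβ
    exact ⟨succ j, hl.succ_lt hj, hj'.trans_le (le_fst N F (lt_succ j))⟩
  have scon : ∀ k i, IsSuccLimit i → ∀ β < (sq N F i).2 k, ∃ i' < i, β < (sq N F i').2 k := by
    intro k i hl β hβ
    obtain ⟨j, hj, hj'⟩ := lt_snd N F hβ
    exact ⟨succ j, hl.succ_lt hj, hj'.trans_lt (lt_snd_of N F k (lt_succ j))⟩
  refine ⟨(sq N F θ.ord).1, ⟨(bd _ le_rfl).1, ?_, ?_⟩, fun η => (sq N F η).1,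
    fun k => (sq N F θ.ord).2 k, fun η k => (sq N F η).2 k, ?_⟩
  · -- limit
    have h0 : (0 : Ordinal.{0}) < θ.ord := hx.treg.ord_pos
    refine ⟨?_, isSuccPrelimit_of_succ_lt ?_⟩
    · intro hm
      exact absurd (fstr 0 h0 _ h0) (not_lt.2 (hm (fstr 0 h0 _ h0).le))
    · intro β hβ
      obtain ⟨i, hi, hi'⟩ := fcon _ tlim β hβ
      exact (succ_le_of_lt hi').trans_lt (fstr i hi _ hi)
  · intro β hβ
    obtain ⟨i, hi, hi'⟩ := fcon _ tlim β hβ
    exact ((nn i hi).2.2.1 β hi'.le).trans_le (le_fst N F hi)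
  · refine ⟨(bd _ le_rfl).1, ⟨?_, ?_, ?_, ?_⟩, (bd _ le_rfl).2, ?_, ?_, ?_⟩
    · intro i hi
      exact fstr i hi _ hi
    · intro i hi i' hi'
      exact fstr i' (hi'.trans hi) _ hi'
    · intro i _ hl β hβ
      exact fcon i hl β hβ
    · intro β hβ
      exact fcon _ tlim β hβ
    · intro k _
      refine ⟨?_, ?_, ?_, ?_⟩
      · intro i hi
        exact (le_max_left _ _).trans_lt (lt_snd_of N F k hi)
      · intro i _ i' hi'
        exact (le_max_left _ _).trans_lt (lt_snd_of N F k hi')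
      · intro i _ hl β hβ
        exact scon k i hl β hβ
      · intro β hβ
        exact scon k _ tlim β hβ
    · intro η _ k _
      exact (le_max_right _ _).trans_lt (lt_snd_of N F k (lt_succ η))
    · intro η hη
      obtain ⟨a, ha, ha'⟩ := (nn η hη).2.2.2
      have hsη : succ η < θ.ord := tlim.succ_lt hη
      have h1 : a < (sq N F (succ η)).1 := ha.trans_le (le_fst N F (lt_succ η))
      obtain ⟨k₀, hk₀, hk⟩ := hs.inc _ (bd _ hsη.le).1 a h1
      filter_upwards [ha', tT κ.ord k₀ hk₀] with k e1 e2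
      exact e1.trans (hk k e2.1.le e2.2.1)

end Pool.FAT
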