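import Pool.Agent.FAT.Stmts

/-!
MP_a44074_lc, project FAT: the scale is cofinal modulo clubs.
-/

set_option autoImplicit false

namespace Pool.FAT

open Ordinal Cardinal Order Set

namespace CofinalX

/-- An injection of `Iic x` into `Iio m.ord` for `x < (succ m).ord`, `m` infinite. -/
theorem exists_inj (m : Cardinal.{0}) (hm : ℵ₀ ≤ m) (x : Ordinal.{0})
    (hx : x < (succ m).ord) :
    ∃ g : Ordinal.{0} → Ordinal.{0}, (∀ y ≤ x, g y < m.ord) ∧
      ∀ y ≤ x, ∀ z ≤ x, g y = g z → y = z := by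
  have h1 : x.card ≤ m := by
    rw [lt_ord] at hx
    exact Order.lt_succ_iff.1 hx
  have h2 : (Order.succ x).card ≤ m := by
    rw [Order.succ_eq_add_one, Ordinal.card_add, Ordinal.card_one]
    exact Cardinal.add_le_of_le hm h1 (Cardinal.one_le_aleph0.trans hm)
  have h3 : #(Set.Iio (Order.succ x)) ≤ #(Set.Iio m.ord) := by
    rw [Cardinal.mk_Iio_ordinal, Cardinal.mk_Iio_ordinal, Cardinal.card_ord]
    exact Cardinal.lift_le.2 h2
  obtain ⟨f⟩ := h3
  classical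
  refine ⟨fun y => if h : y < Order.succ x then (f ⟨y, h⟩ : Ordinal.{0}) else 0, ?_, ?_⟩
  · intro y hy
    have hy' : y < Order.succ x := Order.lt_succ_iff.2 hy
    simp only [hy', dif_pos]
    exact (f ⟨y, hy'⟩).2
  · intro y hy z hz hyz
    have hy' : y < Order.succ x := Order.lt_succ_iff.2 hy
    have hz' : z < Order.succ x := Order.lt_succ_iff.2 hz
    simp only [hy', hz', dif_pos] at hyz
    have := f.injective (Subtype.ext hyz)
    exact congrArg Subtype.val this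

end CofinalX

open CofinalX in
theorem t_Cofinal : Stmt_Tail → Stmt_Fodor → Stmt_Count → Stmt_Cofinal := by
  intro hTail hFodor hCount lam κ θ μ F hC hS χ hχ
  classical
  by_contra hcon
  push Not at hcon
  have hκ0 : (0 : Ordinal.{0}) < κ.ord := by
    rw [lt_ord, Ordinal.card_zero]
    exact Cardinal.aleph0_pos.trans_le hC.kreg.aleph0_le
  have hμinf : ∀ k < κ.ord, ℵ₀ ≤ μ k := fun k hk =>
    hC.treg.aleph0_le.trans (hC.base k hk)
  have hlam : ℵ₀ ≤ lam := (hμinf 0 hκ0).trans (hC.lt 0 hκ0).le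
  have hκlam : κ ≤ lam :=
    (hC.tbig.le.trans ((hC.base 0 hκ0).trans (hC.lt 0 hκ0).le))
  have hg : ∀ k, ∃ g : Ordinal.{0} → Ordinal.{0}, k < κ.ord →
      ((∀ y ≤ χ k, g y < (μ k).ord) ∧ ∀ y ≤ χ k, ∀ z ≤ χ k, g y = g z → y = z) := by
    intro k
    by_cases hk : k < κ.ord
    · obtain ⟨g, h1, h2⟩ := exists_inj (μ k) (hμinf k hk) (χ k) (hχ k hk)
      exact ⟨g, fun _ => ⟨h1, h2⟩⟩
    · exact ⟨id, fun h => absurd h hk⟩
  choose g hg using hg
  -- the pressing down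
  have hpress : ∀ a, a < (succ lam).ord → ∃ ν < κ.ord,
      ∃ᶠ k in CF κ.ord, k < κ.ord ∧ F a k ≤ χ k ∧ g k (F a k) < (μ ν).ord := by
    intro a ha
    have hfr : ∃ᶠ k in CF κ.ord, F a k ≤ χ k := hcon a ha
    have hfr2 := hfr.and_eventually (hTail κ.ord 0 hκ0)
    have hex : ∀ k, ∃ i, (k < κ.ord → IsSuccLimit k → F a k ≤ χ k →
        i < k ∧ g k (F a k) < (μ i).ord) := by
      intro k
      by_cases hk : k < κ.ord ∧ IsSuccLimit k ∧ F a k ≤ χ k
      · obtain ⟨hk1, hk2, hk3⟩ := hk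
        have h1 := (hg k hk1).1 _ hk3
        rw [lt_ord] at h1
        obtain ⟨i, hi, hi2⟩ := hC.cont k hk1 hk2 _ h1
        exact ⟨i, fun _ _ _ => ⟨hi, lt_ord.2 hi2⟩⟩
      · exact ⟨0, fun h1 h2 h3 => absurd ⟨h1, h2, h3⟩ hk⟩
    choose f hf using hex
    obtain ⟨ν, hν, hνf⟩ := hFodor κ hC.kreg
      (fun k => k < κ.ord ∧ F a k ≤ χ k ∧ g k (F a k) < (μ (f k)).ord) f (by
        refine hfr2.mono ?_
        rintro k ⟨h1, h2, h3, h4⟩
        obtain ⟨h6, h7⟩ := hf k h3 h4 h1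
        exact ⟨⟨h3, h1, h7⟩, h6⟩)
    refine ⟨ν, hν, hνf.mono ?_⟩
    rintro k ⟨⟨h1, h2, h3⟩, h4⟩
    rw [h4] at h3
    exact ⟨h1, h2, h3⟩
  have hpress' : ∀ a, ∃ ν, a < (succ lam).ord → (ν < κ.ord ∧
      ∃ᶠ k in CF κ.ord, k < κ.ord ∧ F a k ≤ χ k ∧ g k (F a k) < (μ ν).ord) := by
    intro a
    by_cases ha : a < (succ lam).ord
    · obtain ⟨ν, h1, h2⟩ := hpress a ha
      exact ⟨ν, fun _ => ⟨h1, h2⟩⟩
    · exact ⟨0, fun h => absurd h ha⟩
  choose N hN using hpress'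
  -- each fibre is small
  have hfib : ∀ ν < κ.ord, #{a : Ordinal.{0} | a < (succ lam).ord ∧ N a = ν} ≤
      Cardinal.lift.{1} lam := by
    intro ν hν
    have h1 := hCount κ (μ ν) {a : Ordinal.{0} | a < (succ lam).ord ∧ N a = ν}
      (fun a => {k | k < κ.ord ∧ F a.1 k ≤ χ k ∧ g k (F a.1 k) < (μ ν).ord})
      (fun a k => g k (F a.1 k)) hC.kreg.aleph0_le (hμinf ν hν)
      (by
        rintro ⟨a, ha1, ha2⟩
        have := (hN a ha1).2
        rw [ha2] at this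
        exact this)
      (by
        rintro ⟨a, ha1, ha2⟩ k hk
        exact hk.2.2)
      (by
        have key : ∀ a b : Ordinal.{0}, a < b → b < (succ lam).ord →
            ∀ᶠ k in CF κ.ord, ∀ (_ : k < κ.ord) (_ : F a k ≤ χ k) (_ : F b k ≤ χ k),
              g k (F a k) ≠ g k (F b k) := by
          intro a b hab hb
          obtain ⟨k₀, hk₀, hk₁⟩ := hS.inc b hb a hab
          refine (hTail κ.ord k₀ hk₀).mono ?_
          rintro k ⟨e1, e2, e3⟩ f1 f2 f3 f4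
          exact absurd ((hg k f1).2 _ f2 _ f3 f4) (hk₁ k e1.le f1).ne
        rintro ⟨a, ha1, ha2⟩ ⟨b, hb1, hb2⟩ hab
        have hne : a ≠ b := fun h => hab (Subtype.ext h)
        rcases lt_or_gt_of_ne hne with h | h
        · refine (key a b h hb1).mono ?_
          rintro k hk ⟨⟨e1, e2, e3⟩, ⟨f1, f2, f3⟩, e4⟩
          exact hk e1 e2 f2 e4
        · refine (key b a h ha1).mono ?_
          rintro k hk ⟨⟨e1, e2, e3⟩, ⟨f1, f2, f3⟩, e4⟩
          exact hk e1 f2 e2 e4.symm)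
    refine h1.trans (Cardinal.lift_le.2 (hC.pow _ (hC.lt ν hν)).le)
  -- the union of the fibres is everything
  have hcov : Set.Iio (succ lam).ord ⊆ ⋃ ν : Set.Iio κ.ord,
      {a : Ordinal.{0} | a < (succ lam).ord ∧ N a = ν.1} := by
    intro a ha
    rw [Set.mem_iUnion]
    exact ⟨⟨N a, (hN a ha).1⟩, ha, rfl⟩
  have hcard := (Cardinal.mk_le_mk_of_subset hcov).trans (Cardinal.mk_iUnion_le _)
  rw [Cardinal.mk_Iio_ordinal, Cardinal.card_ord, Cardinal.mk_Iio_ordinal,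
    Cardinal.card_ord] at hcard
  have hlam' : ℵ₀ ≤ Cardinal.lift.{1} lam := by
    rw [← Cardinal.lift_aleph0.{1, 0}]
    exact Cardinal.lift_le.2 hlam
  have h2 : Cardinal.lift.{1} κ * ⨆ ν : Set.Iio κ.ord,
      #{a : Ordinal.{0} | a < (succ lam).ord ∧ N a = ν.1} ≤ Cardinal.lift.{1} lam := by
    have e1 : Cardinal.lift.{1} κ ≤ Cardinal.lift.{1} lam := Cardinal.lift_le.2 hκlam
    have e2 : (⨆ ν : Set.Iio κ.ord,
      #{a : Ordinal.{0} | a < (succ lam).ord ∧ N a = ν.1}) ≤ Cardinal.lift.{1} lam :=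
      ciSup_le' fun ν => hfib ν.1 ν.2
    have e3 : Cardinal.lift.{1} lam * Cardinal.lift.{1} lam = Cardinal.lift.{1} lam :=
      Cardinal.mul_eq_self hlam'
    calc _ ≤ Cardinal.lift.{1} lam * Cardinal.lift.{1} lam := mul_le_mul' e1 e2
      _ = _ := e3
  have h3 := hcard.trans h2
  have h4 : succ lam ≤ lam := Cardinal.lift_le.1 h3
  exact absurd (Order.lt_succ lam) (not_lt.2 h4)

end Pool.FAT
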