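import Pool.Agent.FAT.Stmts

/-!
MP_a44074_lc, project FAT, module Count: counting by an injection in a function space.
-/

set_option autoImplicit false

namespace Pool.FAT

open Ordinal Cardinal Order Set

theorem t_Count : Stmt_Count := by
  intro κ ρ ι St φ hκ hρ h1 h2 h3
  classical
  have hval : ∀ (a : ι) (k : Ordinal.{0}), (if k ∈ St a then φ a k else ρ.ord) < ρ.ord + 1 := by
    intro a k
    split_ifs with h
    · exact (h2 a k h).trans (lt_add_one _)
    · exact lt_add_one _
  let Ψ : ι → (Set.Iio κ.ord → Set.Iio (ρ.ord + 1)) := fun a k =>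
    ⟨if k.1 ∈ St a then φ a k.1 else ρ.ord, hval a k.1⟩
  have hinj : Function.Injective Ψ := by
    intro a a' haa
    by_contra hne
    have hlt : ∀ᶠ k in CF κ.ord, k < κ.ord :=
      eventually_CF.2 ⟨id, fun _ h => h, fun η hη => hη.1⟩
    obtain ⟨k, hk1, hk2, hk3⟩ := ((h1 a).and_eventually (hlt.and (h3 a a' hne))).exists
    have h4 := congrArg Subtype.val (congrFun haa ⟨k, hk2⟩)
    have h5 : (if k ∈ St a then φ a k else ρ.ord) = (if k ∈ St a' then φ a' k else ρ.ord) := h4
    rw [if_pos hk1] at h5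
    by_cases h6 : k ∈ St a'
    · rw [if_pos h6] at h5
      exact hk3 ⟨hk1, h6, h5⟩
    · rw [if_neg h6] at h5
      exact absurd h5 (h2 a k hk1).ne
  have h4 := Cardinal.mk_le_of_injective hinj
  have hcard : (ρ.ord + 1).card = ρ := by
    rw [Ordinal.card_add, Cardinal.card_ord, Ordinal.card_one]
    exact Cardinal.add_one_eq hρ
  have h5 : #(Set.Iio κ.ord → Set.Iio (ρ.ord + 1)) = Cardinal.lift.{1} (ρ ^ κ) := by
    rw [← Cardinal.power_def, Cardinal.mk_Iio_ordinal, Cardinal.mk_Iio_ordinal, hcard,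
      Cardinal.card_ord, Cardinal.lift_power]
  rwa [h5] at h4

end Pool.FAT
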