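import Mathlib

/-!
MP_a44074_lc, project FAT: a Silver-type theorem for the ideal `I[E_{cf lam}; lam]`.
Definitions.
-/

set_option autoImplicit false

namespace Pool.FAT

open Ordinal Cardinal Order Set

/-! ### Clubs and the normal filter of closure points -/

/-- `C` is a closed unbounded subset of `γ` (same text as in the frozen statement). -/
def IsClubIn (C : Set Ordinal.{0}) (γ : Ordinal.{0}) : Prop :=
  C ⊆ Set.Iio γ ∧ (∀ β < γ, ∃ c ∈ C, β < c) ∧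
    (∀ β < γ, β ≠ 0 → (∀ δ < β, ∃ c ∈ C, δ < c ∧ c < β) → β ∈ C)

/-- The limit ordinals below `o` that are closed under `h`. -/
def CP (o : Ordinal.{0}) (h : Ordinal.{0} → Ordinal.{0}) : Set Ordinal.{0} :=
  {η | η < o ∧ IsSuccLimit η ∧ ∀ η' < η, h η' < η}

/-- The filter generated by the sets `CP o h`; for a regular uncountable `o` it is the filter
generated by the clubs of `o`.  `∀ᶠ` means: for club many, `∃ᶠ` means: for stationarily many. -/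
def CF (o : Ordinal.{0}) : Filter Ordinal.{0} where
  sets := {S | ∃ h : Ordinal.{0} → Ordinal.{0}, (∀ η < o, h η < o) ∧ CP o h ⊆ S}
  univ_sets := ⟨id, fun _ h => h, Set.subset_univ _⟩
  sets_of_superset := fun ⟨h, h1, h2⟩ hst => ⟨h, h1, h2.trans hst⟩
  inter_sets := by
    rintro S T ⟨h, h1, h2⟩ ⟨g, g1, g2⟩
    refine ⟨fun η => max (h η) (g η), fun η hη => max_lt (h1 η hη) (g1 η hη), ?_⟩
    rintro η ⟨e1, e2, e3⟩
    exact ⟨h2 ⟨e1, e2, fun η' hη' => (le_max_left _ _).trans_lt (e3 η' hη')⟩,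
      g2 ⟨e1, e2, fun η' hη' => (le_max_right _ _).trans_lt (e3 η' hη')⟩⟩

theorem mem_CF {o : Ordinal.{0}} {S : Set Ordinal.{0}} :
    S ∈ CF o ↔ ∃ h : Ordinal.{0} → Ordinal.{0}, (∀ η < o, h η < o) ∧ CP o h ⊆ S := Iff.rfl

theorem eventually_CF {o : Ordinal.{0}} {P : Ordinal.{0} → Prop} :
    (∀ᶠ η in CF o, P η) ↔
      ∃ h : Ordinal.{0} → Ordinal.{0}, (∀ η < o, h η < o) ∧ ∀ η ∈ CP o h, P η := Iff.rfl

/-- `e` is a strictly increasing continuous sequence of length `o` with limit `ξ`. -/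
structure NSeq (o ξ : Ordinal.{0}) (e : Ordinal.{0} → Ordinal.{0}) : Prop where
  lt : ∀ i < o, e i < ξ
  strict : ∀ i < o, ∀ i' < i, e i' < e i
  cont : ∀ i < o, IsSuccLimit i → ∀ β < e i, ∃ i' < i, β < e i'
  cofinal : ∀ β < ξ, ∃ i < o, β < e i

/-! ### The data -/

/-- `lam` is a singular cardinal of uncountable cofinality `κ`, `ν ^ κ < lam` for `ν < lam`,
`(μ k)` is increasing, continuous and cofinal in `lam`, `θ` is regular, `κ < θ ≤ μ 0`. -/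
structure Ctx (lam κ θ : Cardinal.{0}) (μ : Ordinal.{0} → Cardinal.{0}) : Prop where
  kreg : κ.IsRegular
  kunc : ℵ₀ < κ
  treg : θ.IsRegular
  tbig : κ < θ
  base : ∀ k < κ.ord, θ ≤ μ k
  mono : ∀ i j, i < j → j < κ.ord → μ i < μ j
  lt : ∀ k < κ.ord, μ k < lam
  cofinal : ∀ ν < lam, ∃ k < κ.ord, ν < μ k
  cont : ∀ k < κ.ord, IsSuccLimit k → ∀ ν < μ k, ∃ i < k, ν < μ i
  pow : ∀ ν < lam, ν ^ κ < lam

/-- Transitive filtrations `A β k` (`k < κ`) of the ordinals `β < lam⁺`, containing `X β`. -/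
structure Filt (lam κ : Cardinal.{0}) (μ : Ordinal.{0} → Cardinal.{0})
    (X : Ordinal.{0} → Set Ordinal.{0}) (A : Ordinal.{0} → Ordinal.{0} → Set Ordinal.{0}) :
    Prop where
  sub : ∀ β k, A β k ⊆ Set.Iio β
  base : ∀ β < (succ lam).ord, ∀ k < κ.ord, X β ⊆ A β k
  mono : ∀ β < (succ lam).ord, ∀ i j, i ≤ j → j < κ.ord → A β i ⊆ A β j
  union : ∀ β < (succ lam).ord, ∀ α < β, ∃ k < κ.ord, α ∈ A β k
  card : ∀ β < (succ lam).ord, ∀ k < κ.ord, #(A β k) ≤ Cardinal.lift.{1} (μ k)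
  trans : ∀ β < (succ lam).ord, ∀ k < κ.ord, ∀ α ∈ A β k, A α k ⊆ A β k

/-- `F β` (`β < lam⁺`) is increasing modulo bounded sets in the product of the `(μ k)⁺`. -/
structure Scale (lam κ : Cardinal.{0}) (μ : Ordinal.{0} → Cardinal.{0})
    (F : Ordinal.{0} → Ordinal.{0} → Ordinal.{0}) : Prop where
  lt : ∀ β < (succ lam).ord, ∀ k < κ.ord, F β k < (succ (μ k)).ord
  inc : ∀ β < (succ lam).ord, ∀ α < β, ∃ k₀ < κ.ord, ∀ k, k₀ ≤ k → k < κ.ord → F α k < F β k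

/-- `G δ k` is (for club many `k`) the diagonal supremum `sup_{i<k} F (e i) k`, for every
continuous cofinal sequence `e` of length `κ` in `δ`. -/
structure GFun (lam κ : Cardinal.{0}) (F G : Ordinal.{0} → Ordinal.{0} → Ordinal.{0}) :
    Prop where
  key : ∀ δ < (succ lam).ord, ∀ e, NSeq κ.ord δ e → ∀ᶠ k in CF κ.ord,
    (∀ i < k, F (e i) k ≤ G δ k) ∧ ∀ β < G δ k, ∃ i < k, β < F (e i) k
  lt : ∀ a' < (succ lam).ord, ∀ a < a', a.cof = κ → a'.cof = κ →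
    ∀ᶠ k in CF κ.ord, G a k < G a' k

/-- The interleaved sequences `δ η < lam⁺` and `χ η` in the product of the `(μ k)⁺`, `η < θ`. -/
structure Chain (lam κ θ : Cardinal.{0}) (μ : Ordinal.{0} → Cardinal.{0})
    (F : Ordinal.{0} → Ordinal.{0} → Ordinal.{0}) (γ : Ordinal.{0})
    (δ : Ordinal.{0} → Ordinal.{0}) (Γ : Ordinal.{0} → Ordinal.{0})
    (χ : Ordinal.{0} → Ordinal.{0} → Ordinal.{0}) : Prop where
  gam : γ < (succ lam).ord
  del : NSeq θ.ord γ δ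
  Gam : ∀ k < κ.ord, Γ k < (succ (μ k)).ord
  chi : ∀ k < κ.ord, NSeq θ.ord (Γ k) (fun η => χ η k)
  up : ∀ η < θ.ord, ∀ k < κ.ord, F (δ η) k < χ (succ η) k
  dn : ∀ η < θ.ord, ∀ᶠ k in CF κ.ord, χ η k < F (δ (succ η)) k

/-! ### The hypothesis on `μ k` -/

/-- `C ε j` (`j < μ`) are sets of size `< μ`; every `γ < μ⁺` of cofinality `θ` has a club `D` such
that for every `ε ∈ D` with `cf ε = cf μ` some `C ε j` contains all `α ∈ D ∩ ε` with
`cf α = cf μ`. -/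
def WSfam (μ θ : Cardinal.{0}) (C : Ordinal.{0} → Ordinal.{0} → Set Ordinal.{0}) : Prop :=
  (∀ ε j, #(C ε j) < Cardinal.lift.{1} μ) ∧
  ∀ γ < (succ μ).ord, γ.cof = θ → ∃ D : Set Ordinal.{0}, IsClubIn D γ ∧
    ∀ ε ∈ D, ε.cof = μ.ord.cof →
      ∃ j < μ.ord, ∀ α ∈ D, α < ε → α.cof = μ.ord.cof → α ∈ C ε j

/-- The principle `WS(μ, θ)`. -/
def WS (μ θ : Cardinal.{0}) : Prop := ∃ C, WSfam μ θ C

/-- The club version, for `μ`, of the statement that `E_θ` is in `I[E_{cf μ}; μ]`: a normal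
`d : [μ⁺]² → cf μ` such that every `γ < μ⁺` of cofinality `θ` has a club `D` such that for every
`β ∈ D ∩ E_{cf μ}` the values `d α β`, `α ∈ D ∩ E_{cf μ} ∩ β`, are bounded below `cf μ`. -/
def ClubGood (μ θ : Cardinal.{0}) : Prop :=
  ∃ d : Ordinal.{0} → Ordinal.{0} → Ordinal.{0},
    (∀ i < μ.ord.cof.ord, ∀ β < (succ μ).ord,
      Cardinal.mk {α : Ordinal.{0} // α < β ∧ d α β ≤ i} < Cardinal.lift.{1} μ) ∧
    ∀ γ < (succ μ).ord, γ.cof = θ → ∃ D : Set Ordinal.{0}, IsClubIn D γ ∧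
      ∀ β ∈ D, β.cof = μ.ord.cof →
        ∃ i < μ.ord.cof.ord, ∀ α ∈ D, α < β → α.cof = μ.ord.cof → d α β ≤ i

/-- The weak square principle at `μ`. -/
def WeakSquare (μ : Cardinal.{0}) : Prop :=
  ∃ C : Ordinal.{0} → Set (Set Ordinal.{0}), ∀ ε < (succ μ).ord, IsSuccLimit ε →
    (C ε).Nonempty ∧ #(C ε) ≤ Cardinal.lift.{1} μ ∧
    ∀ D ∈ C ε, IsClubIn D ε ∧ Ordinal.type (fun a b : D => a < b) ≤ Ordinal.lift.{1} μ.ord ∧
      ∀ ε' < ε, ε' ≠ 0 → (∀ δ < ε', ∃ c ∈ D, δ < c ∧ c < ε') → D ∩ Set.Iio ε' ∈ C ε'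

/-- The set `X_δ` which catches the earlier points of a fat point: `ν < κ`. -/
def XX (κ : Cardinal.{0}) (μ : Ordinal.{0} → Cardinal.{0})
    (G : Ordinal.{0} → Ordinal.{0} → Ordinal.{0})
    (C : Ordinal.{0} → Ordinal.{0} → Ordinal.{0} → Set Ordinal.{0})
    (ν : Ordinal.{0}) (δ : Ordinal.{0}) : Set Ordinal.{0} :=
  {a | a < δ ∧ a.cof = κ ∧ ∃ᶠ k in CF κ.ord, ∃ j < (μ ν).ord,
    #(C k (G δ k) j) ≤ Cardinal.lift.{1} (μ ν) ∧ G a k ∈ C k (G δ k) j}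

/-! ### The conclusion -/

/-- `I[E_{cf lam}; lam]` contains a stationary subset of `lam⁺` which consists of points of
cofinality `θ`: the text of the frozen statement S15151 for one cardinal `lam`, with the additional
property `γ.cof = θ` for all `γ ∈ T`. -/
def Fat (lam θ : Cardinal.{0}) : Prop :=
  ∃ T : Set Ordinal.{0},
    (∀ γ ∈ T, γ < (Order.succ lam).ord ∧ Cardinal.aleph0 < γ.cof ∧ γ.cof = θ ∧
      ∀ C : Set Ordinal.{0}, IsClubIn C γ → ∃ c ∈ C, c < γ ∧ c.cof = lam.ord.cof) ∧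
    (∀ C : Set Ordinal.{0}, IsClubIn C (Order.succ lam).ord → ∃ c ∈ C, c ∈ T) ∧
    ∃ d : Ordinal.{0} → Ordinal.{0} → Ordinal.{0},
      (∀ α β : Ordinal.{0}, α < β → β < (Order.succ lam).ord → d α β < lam.ord.cof.ord) ∧
      (∀ α β γ : Ordinal.{0}, α < β → β < γ → γ < (Order.succ lam).ord →
        d α γ ≤ max (d α β) (d β γ)) ∧
      (∀ i < lam.ord.cof.ord, ∀ β < (Order.succ lam).ord,
        Cardinal.mk {α : Ordinal.{0} // α < β ∧ d α β ≤ i} < Cardinal.lift.{1} lam) ∧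
      ∃ D : Set Ordinal.{0}, IsClubIn D (Order.succ lam).ord ∧
        ∀ γ ∈ T, γ ∈ D → lam.ord.cof < γ.cof →
          ∃ Sg : Set Ordinal.{0},
            (∀ α ∈ Sg, α < γ ∧ α.cof = lam.ord.cof) ∧
            (∀ C : Set Ordinal.{0}, IsClubIn C γ → ∃ c ∈ C, c ∈ Sg) ∧
            ∃ j < lam.ord.cof.ord, ∀ α ∈ Sg, ∀ β ∈ Sg, α < β → d α β ≤ j

end Pool.FAT
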