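import Pool.Agent.FAT.Stmts

/-!
MP_a44074_lc, project FAT: final assembly.
-/

set_option autoImplicit false

namespace Pool.FAT

open Ordinal Cardinal Order Set

namespace Final

theorem isSuccLimit_ord {c : Cardinal.{0}} (h : ℵ₀ ≤ c) : IsSuccLimit c.ord :=
  Cardinal.isSuccLimit_ord h

theorem ctx_aleph0_le {lam κ θ : Cardinal.{0}} {μ : Ordinal.{0} → Cardinal.{0}}
    (c : Ctx lam κ θ μ) : ∀ k < κ.ord, ℵ₀ ≤ μ k :=
  fun k hk => c.treg.aleph0_le.trans (c.base k hk)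

theorem ctx_K0 {lam κ θ : Cardinal.{0}} {μ : Ordinal.{0} → Cardinal.{0}}
    (c : Ctx lam κ θ μ) : (0 : Ordinal.{0}) < κ.ord := by
  have := (isSuccLimit_ord c.kreg.aleph0_le).bot_lt
  simpa using this

theorem ctx_theta_lt {lam κ θ : Cardinal.{0}} {μ : Ordinal.{0} → Cardinal.{0}}
    (c : Ctx lam κ θ μ) : θ < lam :=
  (c.base 0 (ctx_K0 c)).trans_lt (c.lt 0 (ctx_K0 c))

theorem ctx_aleph0_lam {lam κ θ : Cardinal.{0}} {μ : Ordinal.{0} → Cardinal.{0}}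
    (c : Ctx lam κ θ μ) : ℵ₀ ≤ lam :=
  c.treg.aleph0_le.trans (ctx_theta_lt c).le

theorem ctx_k_lt_theta {lam κ θ : Cardinal.{0}} {μ : Ordinal.{0} → Cardinal.{0}}
    (c : Ctx lam κ θ μ) : κ < θ := c.tbig

theorem ctx_mono {lam κ θ : Cardinal.{0}} {μ : Ordinal.{0} → Cardinal.{0}}
    (c : Ctx lam κ θ μ) : ∀ i j, i ≤ j → j < κ.ord → μ i ≤ μ j := by
  intro i j hij hj
  rcases hij.lt_or_eq with h | h
  · exact (c.mono i j h hj).le
  · rw [h]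

theorem lreg {lam κ θ : Cardinal.{0}} {μ : Ordinal.{0} → Cardinal.{0}}
    (c : Ctx lam κ θ μ) : (succ lam).IsRegular :=
  Cardinal.isRegular_succ (ctx_aleph0_lam c)

/-- The identity is an `NSeq` of length `c.ord`. -/
theorem nseq_id {c : Cardinal.{0}} (h : ℵ₀ ≤ c) : NSeq c.ord c.ord (fun i => i) where
  lt := fun i hi => hi
  strict := fun i _ i' hi' => hi'
  cont := by
    intro i _ hl β hβ
    exact ⟨succ β, hl.succ_lt hβ, lt_succ β⟩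
  cofinal := by
    intro β hβ
    exact ⟨succ β, (isSuccLimit_ord h).succ_lt hβ, lt_succ β⟩

theorem isClubIn_Iio {c : Cardinal.{0}} (h : ℵ₀ ≤ c) : IsClubIn (Set.Iio c.ord) c.ord :=
  ⟨le_refl _, fun β hβ => ⟨succ β, (isSuccLimit_ord h).succ_lt hβ, lt_succ β⟩,
    fun _ hβ _ _ => hβ⟩

theorem isSuccLimit_of_cof {ξ : Ordinal.{0}} (h : ℵ₀ ≤ ξ.cof) : IsSuccLimit ξ :=
  Ordinal.one_lt_cof_iff.1 (Cardinal.one_lt_aleph0.trans_le h)

/-- The number of parameters. -/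
theorem card_par {lam κ θ : Cardinal.{0}} {μ : Ordinal.{0} → Cardinal.{0}}
    (c : Ctx lam κ θ μ) : #(Set.Iio κ.ord) < Cardinal.lift.{1} (succ lam) := by
  rw [Cardinal.mk_Iio_ordinal, Cardinal.card_ord, Cardinal.lift_lt]
  exact ((ctx_k_lt_theta c).trans (ctx_theta_lt c)).trans (lt_succ lam)

/-- The set of good points for the parameter `ν`. -/
def TT (lam κ θ : Cardinal.{0}) (μ : Ordinal.{0} → Cardinal.{0})
    (G : Ordinal.{0} → Ordinal.{0} → Ordinal.{0})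
    (C : Ordinal.{0} → Ordinal.{0} → Ordinal.{0} → Set Ordinal.{0})
    (ν : Ordinal.{0}) : Set Ordinal.{0} :=
  {γ | γ < (succ lam).ord ∧ γ.cof = θ ∧ ∃ Sg : Set Ordinal.{0},
    (∀ α ∈ Sg, α < γ ∧ α.cof = κ) ∧
    (∀ D : Set Ordinal.{0}, IsClubIn D γ → ∃ c ∈ D, c ∈ Sg) ∧
    ∀ α ∈ Sg, ∀ β ∈ Sg, α < β → α ∈ XX κ μ G C ν β}

/-- A point of `TT` from a chain. -/
theorem mem_TT (hPull : Stmt_Pull) (hCofEq : Stmt_CofEq)
    {lam κ θ : Cardinal.{0}} {μ : Ordinal.{0} → Cardinal.{0}}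
    {F G : Ordinal.{0} → Ordinal.{0} → Ordinal.{0}}
    {C : Ordinal.{0} → Ordinal.{0} → Ordinal.{0} → Set Ordinal.{0}} {γ : Ordinal.{0}}
    {δ Γ : Ordinal.{0} → Ordinal.{0}} {χ : Ordinal.{0} → Ordinal.{0} → Ordinal.{0}}
    (c : Ctx lam κ θ μ) (ch : Chain lam κ θ μ F γ δ Γ χ)
    {ν : Ordinal.{0}} {R : Set Ordinal.{0}}
    (hR : ∀ ξ ∈ R, ξ < θ.ord ∧ ξ.cof = κ) (hS : ∃ᶠ ξ in CF θ.ord, ξ ∈ R)
    (hX : ∀ ξ ∈ R, ∀ ξ' ∈ R, ξ' < ξ → δ ξ' ∈ XX κ μ G C ν (δ ξ)) :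
    γ ∈ TT lam κ θ μ G C ν := by
  have hle : ∀ ξ < θ.ord, ∀ ξ' ≤ ξ, δ ξ' ≤ δ ξ := by
    intro ξ hξ ξ' h
    rcases h.lt_or_eq with h | h
    · exact (ch.del.strict ξ hξ ξ' h).le
    · rw [h]
  refine ⟨ch.gam, ?_, δ '' R, ?_, ?_, ?_⟩
  · rw [hCofEq θ.ord γ δ (isSuccLimit_ord c.treg.aleph0_le) ch.del.lt ch.del.strict
      ch.del.cofinal]
    exact c.treg.cof_ord
  · rintro _ ⟨ξ, hξ, rfl⟩
    obtain ⟨h1, h2⟩ := hR ξ hξ
    have hl : IsSuccLimit ξ := isSuccLimit_of_cof (by rw [h2]; exact c.kreg.aleph0_le)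
    refine ⟨ch.del.lt ξ h1, ?_⟩
    rw [hCofEq ξ (δ ξ) δ hl (fun i hi => ch.del.strict ξ h1 i hi)
      (fun i hi i' hi' => ch.del.strict i (hi.trans h1) i' hi') (ch.del.cont ξ h1 hl)]
    exact h2
  · intro D hD
    obtain ⟨ξ, h1, h2⟩ := (hS.and_eventually (hPull θ γ δ D c.treg ch.del hD)).exists
    exact ⟨δ ξ, h2.2, ξ, h1, rfl⟩
  · rintro _ ⟨ξ', hξ', rfl⟩ _ ⟨ξ, hξ, rfl⟩ hlt
    refine hX ξ hξ ξ' hξ' ?_
    by_contra hcon
    rw [not_lt] at hcon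
    exact absurd (hle ξ' (hR ξ' hξ').1 ξ hcon) (not_le.2 hlt)

/-- Some `TT` is stationary. -/
theorem exists_TT (hPull : Stmt_Pull) (hCofEq : Stmt_CofEq) (hCompl : Stmt_Compl)
    (hChain : Stmt_Chain) (hCapture : Stmt_Capture)
    {lam κ θ : Cardinal.{0}} {μ : Ordinal.{0} → Cardinal.{0}}
    {F G : Ordinal.{0} → Ordinal.{0} → Ordinal.{0}}
    {C : Ordinal.{0} → Ordinal.{0} → Ordinal.{0} → Set Ordinal.{0}}
    (c : Ctx lam κ θ μ) (sc : Scale lam κ μ F) (gf : GFun lam κ F G)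
    (hws : ∃ᶠ k in CF κ.ord, WSfam (μ k) θ (C k)) :
    ∃ ν < κ.ord, ∀ E : Set Ordinal.{0}, IsClubIn E (succ lam).ord →
      ∃ x ∈ E, x ∈ TT lam κ θ μ G C ν := by
  by_contra hcon
  push Not at hcon
  have h1 : ∀ p : Set.Iio κ.ord, ∃ E : Set Ordinal.{0},
      IsClubIn E (succ lam).ord ∧ ∀ x ∈ E, x ∉ TT lam κ θ μ G C p.1 := fun p => hcon p.1 p.2
  choose E hE hE2 using h1
  have h2 : ∀ p, ∀ᶠ η in CF (succ lam).ord, η ∈ E p := by
    intro p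
    have := hPull (succ lam) (succ lam).ord (fun i => i) (E p) (lreg c)
      (nseq_id (lreg c).aleph0_le) (hE p)
    exact this.mono fun η h => h.2
  have h3 := hCompl (succ lam) (lreg c) (Set.Iio κ.ord) (card_par c)
    (fun p η => η ∈ E p) h2
  rw [eventually_CF] at h3
  obtain ⟨h, hh1, hh2⟩ := h3
  obtain ⟨γ, hγ, δ, Γ, χ, ch⟩ := hChain lam κ θ μ F c sc h hh1
  obtain ⟨ν, hν, R, hR, hR2, hR3⟩ := hCapture lam κ θ μ F G C γ δ Γ χ c sc gf ch hws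
  have h4 := mem_TT hPull hCofEq c ch hR hR2 hR3
  exact hE2 ⟨ν, hν⟩ γ (hh2 γ hγ _) h4

open Classical in
/-- The function `d` of a filtration. -/
noncomputable def dd (κ : Cardinal.{0}) (A : Ordinal.{0} → Ordinal.{0} → Set Ordinal.{0})
    (α β : Ordinal.{0}) : Ordinal.{0} :=
  sInf {k | k < κ.ord ∧ α ∈ A β k}

theorem dd_mem {lam κ : Cardinal.{0}} {μ : Ordinal.{0} → Cardinal.{0}}
    {X : Ordinal.{0} → Set Ordinal.{0}} {A : Ordinal.{0} → Ordinal.{0} → Set Ordinal.{0}}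
    (f : Filt lam κ μ X A) {α β : Ordinal.{0}} (h1 : α < β) (h2 : β < (succ lam).ord) :
    dd κ A α β < κ.ord ∧ α ∈ A β (dd κ A α β) := by
  obtain ⟨k, hk, hk2⟩ := f.union β h2 α h1
  exact csInf_mem (s := {k | k < κ.ord ∧ α ∈ A β k}) ⟨k, hk, hk2⟩

theorem dd_le {κ : Cardinal.{0}} {A : Ordinal.{0} → Ordinal.{0} → Set Ordinal.{0}}
    {α β k : Ordinal.{0}} (h1 : k < κ.ord) (h2 : α ∈ A β k) : dd κ A α β ≤ k :=
  csInf_le' ⟨h1, h2⟩

/-- The conclusion from a filtration that catches the sets `Sg`. -/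
theorem fat_of_filt {lam κ θ : Cardinal.{0}} {μ μ' : Ordinal.{0} → Cardinal.{0}}
    {G : Ordinal.{0} → Ordinal.{0} → Ordinal.{0}}
    {C : Ordinal.{0} → Ordinal.{0} → Ordinal.{0} → Set Ordinal.{0}}
    {ν : Ordinal.{0}}
    {A : Ordinal.{0} → Ordinal.{0} → Set Ordinal.{0}}
    (c : Ctx lam κ θ μ) (hcof : lam.ord.cof = κ)
    (hT : ∀ E : Set Ordinal.{0}, IsClubIn E (succ lam).ord →
      ∃ x ∈ E, x ∈ TT lam κ θ μ G C ν)
    (hμ' : ∀ k < κ.ord, μ' k < lam)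
    (f : Filt lam κ μ' (fun β => XX κ μ G C ν β) A) : Fat lam θ := by
  refine ⟨TT lam κ θ μ G C ν, ?_, hT, dd κ A, ?_, ?_, ?_, Set.Iio (succ lam).ord,
    isClubIn_Iio (lreg c).aleph0_le, ?_⟩
  · rintro γ ⟨g1, g2, Sg, g3, g4, -⟩
    refine ⟨g1, ?_, g2, fun D hD => ?_⟩
    · rw [g2]
      exact c.kunc.trans (ctx_k_lt_theta c)
    · obtain ⟨x, hx, hx2⟩ := g4 D hD
      exact ⟨x, hx, (g3 x hx2).1, by rw [hcof]; exact (g3 x hx2).2⟩
  · intro α β h1 h2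
    rw [hcof]
    exact (dd_mem f h1 h2).1
  · intro α β γ h1 h2 h3
    obtain ⟨a1, a2⟩ := dd_mem f h1 (h2.trans h3)
    obtain ⟨b1, b2⟩ := dd_mem f h2 h3
    have hm : max (dd κ A α β) (dd κ A β γ) < κ.ord := max_lt a1 b1
    refine dd_le hm ?_
    exact f.trans γ h3 _ hm β (f.mono γ h3 _ _ (le_max_right _ _) hm b2)
      (f.mono β (h2.trans h3) _ _ (le_max_left _ _) hm a2)
  · intro i hi β hβ
    rw [hcof] at hi
    refine lt_of_le_of_lt ?_ (Cardinal.lift_lt.2 (hμ' i hi))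
    refine le_trans ?_ (f.card β hβ i hi)
    refine Cardinal.mk_le_mk_of_subset ?_
    rintro α ⟨h1, h2⟩
    obtain ⟨a1, a2⟩ := dd_mem f h1 hβ
    exact f.mono β hβ _ _ h2 hi a2
  · rintro γ ⟨g1, g2, Sg, g3, g4, g5⟩ - -
    refine ⟨Sg, ?_, g4, 0, ?_, ?_⟩
    · rw [hcof]
      exact g3
    · rw [hcof]
      exact ctx_K0 c
    · intro α hα β hβ h
      exact dd_le (ctx_K0 c) (f.base β ((g3 β hβ).1.trans g1) 0 (ctx_K0 c) (g5 α hα β hβ h))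

end Final

open Final in
/-- The main theorem from the modules. -/
theorem t_Main (hCompl : Stmt_Compl) (hCofEq : Stmt_CofEq) (hPull : Stmt_Pull)
    (hStatCF : Stmt_StatCF) (hTrans : Stmt_Trans) (hRank : Stmt_Rank) (hGFun : Stmt_GFun)
    (hChain : Stmt_Chain) (hCapture : Stmt_Capture) (hXCard : Stmt_XCard) : Stmt_Main := by
  intro lam κ θ μ c hcof hclub
  obtain ⟨A₀, f₀⟩ := hTrans lam κ μ (fun _ => ∅) (ctx_aleph0_lam c) c.kreg.aleph0_le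
    (ctx_mono c) (ctx_aleph0_le c) c.cofinal (by
      intro β _
      refine ⟨Set.empty_subset _, fun k _ => ?_⟩
      simp)
  obtain ⟨F, sc⟩ := hRank lam κ μ (fun _ => ∅) A₀ (ctx_aleph0_le c) f₀
  obtain ⟨G, gf⟩ := hGFun lam κ θ μ F c sc
  have h1 : ∃ᶠ k in CF κ.ord, k ∈ {k | WS (μ k) θ} :=
    hStatCF κ c.kreg c.kunc {k | WS (μ k) θ} hclub
  have h2 : ∃ C : Ordinal.{0} → Ordinal.{0} → Ordinal.{0} → Set Ordinal.{0},
      ∀ k, WS (μ k) θ → WSfam (μ k) θ (C k) := by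
    have : ∀ k : Ordinal.{0}, ∃ C : Ordinal.{0} → Ordinal.{0} → Set Ordinal.{0},
        WS (μ k) θ → WSfam (μ k) θ C := by
      intro k
      by_cases h : WS (μ k) θ
      · obtain ⟨C, hC⟩ := h
        exact ⟨C, fun _ => hC⟩
      · exact ⟨fun _ _ => ∅, fun h' => absurd h' h⟩
    choose C hC using this
    exact ⟨C, hC⟩
  obtain ⟨C, hC⟩ := h2
  have h3 : ∃ᶠ k in CF κ.ord, WSfam (μ k) θ (C k) := h1.mono fun k hk => hC k hk
  obtain ⟨ν, hν, hT⟩ := exists_TT hPull hCofEq hCompl hChain hCapture c sc gf h3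
  obtain ⟨A, f⟩ := hTrans lam κ (fun k => max (μ k) ((μ ν) ^ κ))
    (fun β => XX κ μ G C ν β) (ctx_aleph0_lam c) c.kreg.aleph0_le
    (fun i j hij hj => max_le_max_right _ (ctx_mono c i j hij hj))
    (fun k hk => (ctx_aleph0_le c k hk).trans (le_max_left _ _))
    (fun x hx => by
      obtain ⟨k, hk, hk2⟩ := c.cofinal x hx
      exact ⟨k, hk, hk2.trans_le (le_max_left _ _)⟩)
    (fun β hβ => ⟨fun a ha => ha.1, fun k _ => by
      refine (hXCard lam κ θ μ F G C c gf ν hν β hβ).trans ?_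
      exact Cardinal.lift_le.2 (le_max_right _ _)⟩)
  exact fat_of_filt c hcof hT (fun k hk => max_lt (c.lt k hk) (c.pow _ (c.lt ν hν))) f

end Pool.FAT
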