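import Pool.Agent.FAT.Stmts

/-!
MP_a44074_lc, project FAT, module FAT_GFun: diagonal suprema.
-/

set_option autoImplicit false

namespace Pool.FAT

open Ordinal Cardinal Order Set

namespace GFunX

/-- the cofinality of the limit of a sequence of length `κ` -/
theorem cof_of_nseq (hC : Stmt_CofEq) {κ : Cardinal.{0}} (hκ : κ.IsRegular) {δ : Ordinal.{0}}
    {e : Ordinal.{0} → Ordinal.{0}} (he : NSeq κ.ord δ e) : δ.cof = κ := by
  rw [hC κ.ord δ e (isSuccLimit_ord hκ.aleph0_le) he.lt he.strict he.cofinal]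
  exact hκ.cof_ord

/-- the diagonal supremum -/
noncomputable def G (F : Ordinal.{0} → Ordinal.{0} → Ordinal.{0})
    (ε : Ordinal.{0} → Ordinal.{0} → Ordinal.{0}) (δ k : Ordinal.{0}) : Ordinal.{0} :=
  ⨆ i : Set.Iio k, F (ε δ i.1) k

theorem le_G (F : Ordinal.{0} → Ordinal.{0} → Ordinal.{0})
    (ε : Ordinal.{0} → Ordinal.{0} → Ordinal.{0}) {δ k i : Ordinal.{0}} (h : i < k) :
    F (ε δ i) k ≤ G F ε δ k :=
  Ordinal.le_iSup (fun i : Set.Iio k => F (ε δ i.1) k) ⟨i, h⟩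

theorem lt_G {F : Ordinal.{0} → Ordinal.{0} → Ordinal.{0}}
    {ε : Ordinal.{0} → Ordinal.{0} → Ordinal.{0}} {δ k β : Ordinal.{0}} (h : β < G F ε δ k) :
    ∃ i < k, β < F (ε δ i) k := by
  rw [G, Ordinal.lt_iSup_iff] at h
  obtain ⟨i, hi⟩ := h
  exact ⟨i.1, i.2, hi⟩

end GFunX

open GFunX in
theorem t_GFun : Stmt_Tail → Stmt_Diag → Stmt_Seq → Stmt_CofEq → Stmt_GFun := by
  intro hTail hDiag hSeq hCof lam κ θ μ F hctx hsc
  have hκ := hctx.kreg
  have hKlim : IsSuccLimit κ.ord := isSuccLimit_ord hκ.aleph0_le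
  -- the chosen sequences
  have hex : ∀ δ : Ordinal.{0}, ∃ e : Ordinal.{0} → Ordinal.{0},
      δ.cof = κ → NSeq κ.ord δ e := by
    intro δ
    by_cases h : δ.cof = κ
    · obtain ⟨e, he⟩ := hSeq δ (by rw [h]; exact hκ.aleph0_le)
      rw [h] at he
      exact ⟨e, fun _ => he⟩
    · exact ⟨id, fun h' => absurd h' h⟩
  choose ε hε using hex
  refine ⟨G F ε, ?_, ?_⟩
  · intro δ hδ e he
    have hs := hε δ (cof_of_nseq hCof hκ he)
    -- the bounds
    have hb : ∀ i < κ.ord, ∃ j < κ.ord, ∀ k, j < k → k < κ.ord →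
        (∃ i' < k, F (e i) k < F (ε δ i') k) ∧ (∃ i' < k, F (ε δ i) k < F (e i') k) := by
      intro i hi
      obtain ⟨a, ha, hia⟩ := hs.cofinal (e i) (he.lt i hi)
      obtain ⟨b, hb, hib⟩ := he.cofinal (ε δ i) (hs.lt i hi)
      obtain ⟨k₁, hk₁, h1⟩ := hsc.inc (ε δ a) ((hs.lt a ha).trans hδ) (e i) hia
      obtain ⟨k₂, hk₂, h2⟩ := hsc.inc (e b) ((he.lt b hb).trans hδ) (ε δ i) hib
      refine ⟨max (max a b) (max k₁ k₂), max_lt (max_lt ha hb) (max_lt hk₁ hk₂), ?_⟩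
      intro k hk hkK
      refine ⟨⟨a, ?_, h1 k ?_ hkK⟩, ⟨b, ?_, h2 k ?_ hkK⟩⟩
      · exact ((le_max_left _ _).trans (le_max_left _ _)).trans_lt hk
      · exact (((le_max_left _ _).trans (le_max_right _ _)).trans_lt hk).le
      · exact ((le_max_right _ _).trans (le_max_left _ _)).trans_lt hk
      · exact (((le_max_right _ _).trans (le_max_right _ _)).trans_lt hk).le
    choose! h hh1 hh2 using hb
    rw [eventually_CF]
    refine ⟨h, hh1, ?_⟩
    rintro k ⟨hkK, -, hkc⟩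
    constructor
    · intro i hi
      obtain ⟨i', hi', hlt⟩ := (hh2 i (hi.trans hkK) k (hkc i hi) hkK).1
      exact hlt.le.trans (le_G F ε hi')
    · intro β hβ
      obtain ⟨i, hi, hlt⟩ := lt_G hβ
      obtain ⟨i', hi', hlt'⟩ := (hh2 i (hi.trans hkK) k (hkc i hi) hkK).2
      exact ⟨i', hi', hlt.trans hlt'⟩
  · intro a' ha' a haa hca hca'
    have hsa := hε a hca
    have hsa' := hε a' hca'
    obtain ⟨i₀, hi₀, hai⟩ := hsa'.cofinal a haa
    obtain ⟨k₁, hk₁, h1⟩ := hsc.inc (ε a' i₀) ((hsa'.lt i₀ hi₀).trans ha') a hai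
    have h2 : ∀ᶠ k in CF κ.ord, ∀ i < k, F (ε a i) k < F a k := by
      apply hDiag κ hκ
      intro i hi
      obtain ⟨k₂, hk₂, h2⟩ := hsc.inc a (haa.trans ha') (ε a i) (hsa.lt i hi)
      filter_upwards [hTail κ.ord k₂ hk₂] with k hk
      exact h2 k hk.1.le hk.2.1
    filter_upwards [h2, hTail κ.ord (max k₁ i₀) (max_lt hk₁ hi₀)] with k hk hkT
    have h3 : G F ε a k ≤ F a k := by
      rw [G]
      apply Ordinal.iSup_le
      intro i
      exact (hk i.1 i.2).le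
    calc G F ε a k ≤ F a k := h3
      _ < F (ε a' i₀) k := h1 k ((le_max_left _ _).trans_lt hkT.1).le hkT.2.1
      _ ≤ G F ε a' k := le_G F ε ((le_max_right _ _).trans_lt hkT.1)

end Pool.FAT
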