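import Pool.Agent.FAT.Stmts

/-!
MP_a44074_lc, project FAT, module KEQ: the key equation.
-/

set_option autoImplicit false

namespace Pool.FAT

open Ordinal Cardinal Order Set

namespace KEQX

theorem isSuccLimit_of {a : Ordinal.{0}} (h0 : ∃ b, b < a)
    (h : ∀ b < a, ∃ c, b < c ∧ c < a) : IsSuccLimit a := by
  obtain ⟨b0, hb0⟩ := h0
  refine ⟨fun hm => absurd (hm hb0.le) (not_le.mpr hb0), ?_⟩
  intro b hb
  obtain ⟨c, hc1, hc2⟩ := h b hb.1
  exact hb.2 hc1 hc2

/-- Values of a continuous sequence at limit places are limits. -/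
theorem limit_at {o ξ : Ordinal.{0}} {e : Ordinal.{0} → Ordinal.{0}} (he : NSeq o ξ e)
    {i : Ordinal.{0}} (hi : i < o) (hl : IsSuccLimit i) : IsSuccLimit (e i) := by
  have hpos : 0 < i := hl.bot_lt
  refine isSuccLimit_of ⟨e 0, he.strict i hi 0 hpos⟩ ?_
  intro b hb
  obtain ⟨i', h1, h2⟩ := he.cont i hi hl b hb
  exact ⟨e i', h2, he.strict i hi i' h1⟩

theorem limit_sup {o ξ : Ordinal.{0}} {e : Ordinal.{0} → Ordinal.{0}} (he : NSeq o ξ e)
    (h0 : 0 < o) : IsSuccLimit ξ := by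
  refine isSuccLimit_of ⟨e 0, he.lt 0 h0⟩ ?_
  intro b hb
  obtain ⟨i', h1, h2⟩ := he.cofinal b hb
  exact ⟨e i', h2, he.lt i' h1⟩

theorem comp {o θ γ ξ : Ordinal.{0}} {e δ : Ordinal.{0} → Ordinal.{0}} (h0 : 0 < o)
    (hd : NSeq θ γ δ) (he : NSeq o ξ e) (hξ : ξ < θ) : NSeq o (δ ξ) (fun i => δ (e i)) where
  lt := fun i hi => hd.strict ξ hξ (e i) (he.lt i hi)
  strict := fun i hi i' hi' =>
    hd.strict (e i) ((he.lt i hi).trans hξ) (e i') (he.strict i hi i' hi')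
  cont := by
    intro i hi hl β hβ
    have hei : e i < θ := (he.lt i hi).trans hξ
    obtain ⟨j, hj1, hj2⟩ := hd.cont (e i) hei (limit_at he hi hl) β hβ
    obtain ⟨i', hi1, hi2⟩ := he.cont i hi hl j hj1
    have hi' : i' < o := hi1.trans hi
    exact ⟨i', hi1, hj2.trans (hd.strict (e i') ((he.lt i' hi').trans hξ) j hi2)⟩
  cofinal := by
    intro β hβ
    obtain ⟨j, hj1, hj2⟩ := hd.cont ξ hξ (limit_sup he h0) β hβ
    obtain ⟨i, hi1, hi2⟩ := he.cofinal j hj1
    exact ⟨i, hi1, hj2.trans (hd.strict (e i) ((he.lt i hi1).trans hξ) j hi2)⟩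

end KEQX

open KEQX in
theorem t_KEQ : Stmt_Tail → Stmt_Diag → Stmt_CofEq → Stmt_KEQ := by
  intro hTail hDiag _ lam κ θ μ F G γ δ Γ χ hC hS hG hCh ξ hξ e he
  have hK : IsSuccLimit κ.ord := isSuccLimit_ord hC.kreg.aleph0_le
  have hK0 : 0 < κ.ord := hK.bot_lt
  have hcomp : NSeq κ.ord (δ ξ) (fun i => δ (e i)) := comp hK0 hCh.del he hξ
  have hdL : δ ξ < (succ lam).ord := (hCh.del.lt ξ hξ).trans hCh.gam
  have hkey := hG.key (δ ξ) hdL _ hcomp
  have hmono : ∀ i < κ.ord, succ (e i) ≤ e (succ i) := fun i hi =>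
    succ_le_of_lt (he.strict (succ i) (hK.succ_lt hi) i (lt_succ i))
  have hthe : ∀ i < κ.ord, e i < θ.ord := fun i hi => (he.lt i hi).trans hξ
  have hdn : ∀ i < κ.ord, ∀ᶠ k in CF κ.ord, χ (e i) k < F (δ (e (succ i))) k := by
    intro i hi
    have hsi : succ i < κ.ord := hK.succ_lt hi
    have h1 := hCh.dn (e i) (hthe i hi)
    rcases (hmono i hi).lt_or_eq with hlt | heq
    · have hdd : δ (succ (e i)) < δ (e (succ i)) :=
        hCh.del.strict _ (hthe _ hsi) _ hlt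
      have hdL' : δ (e (succ i)) < (succ lam).ord :=
        (hCh.del.lt _ (hthe _ hsi)).trans hCh.gam
      obtain ⟨k₀, hk₀, hk⟩ := hS.inc _ hdL' _ hdd
      filter_upwards [h1, hTail κ.ord k₀ hk₀] with k h2 h3
      exact h2.trans (hk k h3.1.le h3.2.1)
    · rw [heq] at h1
      exact h1
  have hd := hDiag κ hC.kreg (fun i k => χ (e i) k < F (δ (e (succ i))) k) hdn
  filter_upwards [hkey, hd, hTail κ.ord 0 hK0] with k h1 h2 h3
  obtain ⟨hk0, hkK, hkl⟩ := h3
  have hekl : IsSuccLimit (e k) := limit_at he hkK hkl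
  have hchi := hCh.chi k hkK
  apply le_antisymm
  · apply le_of_forall_lt
    intro β hβ
    obtain ⟨i, hi, hβi⟩ := h1.2 β hβ
    have hiK : i < κ.ord := hi.trans hkK
    have hsk : succ i < k := hkl.succ_lt hi
    have a1 : F (δ (e i)) k < χ (succ (e i)) k := hCh.up (e i) (hthe i hiK) k hkK
    have a2 : χ (succ (e i)) k < χ (e k) k := by
      refine hchi.strict (e k) (hthe k hkK) (succ (e i)) ?_
      exact (hmono i hiK).trans_lt (he.strict k hkK (succ i) hsk)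
    exact (hβi.trans a1).trans a2
  · apply le_of_forall_lt
    intro β hβ
    obtain ⟨η, hη, hβη⟩ := hchi.cont (e k) (hthe k hkK) hekl β hβ
    obtain ⟨i, hi, hηi⟩ := he.cont k hkK hkl η hη
    have hiK : i < κ.ord := hi.trans hkK
    have hsk : succ i < k := hkl.succ_lt hi
    have a1 : χ η k < χ (e i) k := hchi.strict (e i) (hthe i hiK) η hηi
    exact ((hβη.trans a1).trans (h2 i hi)).trans_le (h1.1 (succ i) hsk)

end Pool.FAT
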