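import Pool.Agent.FAT.Stmts

/-!
MP_a44074_lc, project FAT, module Pts: points of given cofinality and continuous cofinal sequences.
-/

set_option autoImplicit false

namespace Pool.FAT

open Ordinal Cardinal Order Set

theorem t_CofEq : Stmt_CofEq := by
  intro o ξ e _ he hs hc
  have hf : StrictMono (fun i : Set.Iio o => (⟨e i.1, he i.1 i.2⟩ : Set.Iio ξ)) := by
    intro i j hij
    exact hs j.1 j.2 i.1 hij
  have hr : IsCofinal (Set.range (fun i : Set.Iio o => (⟨e i.1, he i.1 i.2⟩ : Set.Iio ξ))) := by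
    rintro ⟨β, hβ⟩
    obtain ⟨i, hi, hlt⟩ := hc β hβ
    exact ⟨_, ⟨⟨i, hi⟩, rfl⟩, hlt.le⟩
  have h := cof_congr_of_strictMono hf hr
  rw [cof_Iio, cof_Iio, ← lift_cof, ← lift_cof, Cardinal.lift_inj] at h
  exact h.symm

namespace PtsX

/-- the sequence of the strict suprema of the initial segments -/
noncomputable def cs (F : Ordinal.{0} → Ordinal.{0}) (i : Ordinal.{0}) : Ordinal.{0} :=
  ⨆ j : Set.Iio i, F j.1 + 1

theorem lt_cs (F : Ordinal.{0} → Ordinal.{0}) {i j : Ordinal.{0}} (h : j < i) : F j < cs F i :=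
  Ordinal.lt_iSup_add_one (fun j : Set.Iio i => F j.1) ⟨j, h⟩

theorem lt_cs_iff (F : Ordinal.{0} → Ordinal.{0}) {i β : Ordinal.{0}} :
    β < cs F i ↔ ∃ j < i, β ≤ F j := by
  rw [cs, Ordinal.lt_iSup_add_one_iff]
  constructor
  · rintro ⟨j, hj⟩
    exact ⟨j.1, j.2, hj⟩
  · rintro ⟨j, hj, h⟩
    exact ⟨⟨j, hj⟩, h⟩

theorem cs_le (F : Ordinal.{0} → Ordinal.{0}) {i β : Ordinal.{0}} (h : ∀ j < i, F j < β) :
    cs F i ≤ β := by
  rw [cs, Ordinal.iSup_add_one_le_iff]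
  exact fun j => h j.1 j.2

/-- one step of the closing off -/
noncomputable def st (h : Ordinal.{0} → Ordinal.{0}) (b : Ordinal.{0}) : Ordinal.{0} :=
  max b (⨆ a : Set.Iio (succ b), h a.1)

/-- the closing off of length `i` -/
noncomputable def gg (h : Ordinal.{0} → Ordinal.{0}) (i : Ordinal.{0}) : Ordinal.{0} :=
  ⨆ j : Set.Iio i, st h (gg h j.1) + 1
termination_by i
decreasing_by exact j.2

theorem gg_eq (h : Ordinal.{0} → Ordinal.{0}) (i : Ordinal.{0}) :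
    gg h i = cs (fun j => st h (gg h j)) i := by
  rw [gg, cs]

theorem sup_lt {c : Cardinal.{0}} (hc : c.IsRegular) {b : Ordinal.{0}} (hb : b < c.ord)
    (f : Set.Iio b → Ordinal.{0}) (hf : ∀ i, f i < c.ord) : (⨆ i, f i + 1) < c.ord := by
  apply Ordinal.lift_iSup_add_one_lt_of_lt_cof _ hf
  rw [← lift_cof, hc.cof_ord, Cardinal.mk_Iio_ordinal, Cardinal.lift_lift, Cardinal.lift_lt]
  exact lt_ord.1 hb

theorem st_lt {c : Cardinal.{0}} (hc : c.IsRegular) {h : Ordinal.{0} → Ordinal.{0}}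
    (hh : ∀ η < c.ord, h η < c.ord) {b : Ordinal.{0}} (hb : b < c.ord) : st h b < c.ord := by
  have hb' : succ b < c.ord := (isSuccLimit_ord hc.aleph0_le).succ_lt hb
  refine max_lt hb ?_
  refine lt_of_le_of_lt (iSup_le_iSup_add_one _) (sup_lt hc hb' _ fun i => ?_)
  exact hh _ (lt_trans i.2 hb')

theorem le_st (h : Ordinal.{0} → Ordinal.{0}) {a b : Ordinal.{0}} (hab : a ≤ b) : h a ≤ st h b :=
  le_trans (Ordinal.le_iSup (fun a : Set.Iio (succ b) => h a.1) ⟨a, lt_succ_iff.2 hab⟩)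
    (le_max_right _ _)

end PtsX

open PtsX

theorem t_Seq : Stmt_Seq := by
  classical
  intro ξ hξ
  obtain ⟨f, hf⟩ := exists_isFundamentalSeq (o := ξ) (a := ξ.cof.ord) rfl
  have hlim : IsSuccLimit ξ.cof.ord := isSuccLimit_ord hξ
  let F : Ordinal.{0} → Ordinal.{0} := fun i => if h : i < ξ.cof.ord then (f ⟨i, h⟩).1 else 0
  have hF : ∀ i (h : i < ξ.cof.ord), F i = (f ⟨i, h⟩).1 := fun i h => dif_pos h
  have hmono : ∀ i < ξ.cof.ord, ∀ j < i, F j < F i := by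
    intro i hi j hj
    rw [hF i hi, hF j (hj.trans hi)]
    exact hf.strictMono hj
  have hle : ∀ i < ξ.cof.ord, cs F i ≤ F i := fun i hi => cs_le F (hmono i hi)
  have hlt : ∀ i < ξ.cof.ord, F i < ξ := by
    intro i hi
    rw [hF i hi]
    exact (f ⟨i, hi⟩).2
  refine ⟨cs F, ⟨fun i hi => (hle i hi).trans_lt (hlt i hi), fun i hi i' hi' => ?_, ?_, ?_⟩⟩
  · exact (hle i' (hi'.trans hi)).trans_lt (lt_cs F hi')
  · intro i hi hl β hβ
    obtain ⟨j, hj, hβj⟩ := (lt_cs_iff F).1 hβ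
    exact ⟨succ j, hl.succ_lt hj, hβj.trans_lt (lt_cs F (lt_succ j))⟩
  · intro β hβ
    obtain ⟨_, ⟨j, rfl⟩, hj⟩ := hf.isCofinal_range ⟨β, hβ⟩
    have hj' : β ≤ F j.1 := by
      rw [hF j.1 j.2]
      exact hj
    exact ⟨succ j.1, hlim.succ_lt j.2, hj'.trans_lt (lt_cs F (lt_succ j.1))⟩

theorem t_CofPts : Stmt_CofPts := by
  intro c κ hc hκ hκc hcon
  change ∀ᶠ η in CF c.ord, ¬ η.cof = κ at hcon
  rw [eventually_CF] at hcon
  obtain ⟨h, hh, hP⟩ := hcon
  have hκlim : IsSuccLimit κ.ord := isSuccLimit_ord hκ.aleph0_le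
  have hlt : ∀ i, i ≤ κ.ord → gg h i < c.ord := by
    intro i
    induction i using WellFoundedLT.induction with
    | ind i ih =>
      intro hi
      rw [gg]
      refine sup_lt hc (lt_of_le_of_lt hi (ord_lt_ord.2 hκc)) _ fun j => ?_
      exact st_lt hc hh (ih j.1 j.2 ((le_of_lt j.2).trans hi))
  have hst : ∀ i j, j < i → gg h j < gg h i := by
    intro i j hj
    rw [gg_eq h i]
    exact lt_of_le_of_lt (le_max_left _ _) (lt_cs (fun j => st h (gg h j)) hj)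
  have hcof : ∀ β < gg h κ.ord, ∃ i < κ.ord, β < gg h i := by
    intro β hβ
    rw [gg_eq, lt_cs_iff] at hβ
    obtain ⟨j, hj, hβj⟩ := hβ
    refine ⟨succ j, hκlim.succ_lt hj, ?_⟩
    rw [gg_eq h (succ j)]
    exact lt_of_le_of_lt hβj (lt_cs (fun j => st h (gg h j)) (lt_succ j))
  have hcf : (gg h κ.ord).cof = κ := by
    rw [t_CofEq κ.ord (gg h κ.ord) (gg h) hκlim (fun i hi => hst _ i hi)
      (fun i _ i' hi' => hst i i' hi') hcof, hκ.cof_ord]
  refine hP (gg h κ.ord) ⟨hlt _ le_rfl, ?_, ?_⟩ hcf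
  · rw [← one_lt_cof_iff, hcf]
    exact Cardinal.one_lt_aleph0.trans_le hκ.aleph0_le
  · intro η' hη'
    obtain ⟨i, hi, hlt'⟩ := hcof η' hη'
    rw [gg_eq h κ.ord]
    exact lt_of_le_of_lt (le_st h hlt'.le) (lt_cs (fun j => st h (gg h j)) hi)

end Pool.FAT
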