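import Pool.Agent.FAT.Defs

/-!
MP_a44074_lc, project FAT: statements of the modules, with proofs in the comments.
Notation in the comments: `K = κ.ord`, `Θ = θ.ord`, `L = (succ lam).ord`.
-/

set_option autoImplicit false

namespace Pool.FAT

open Ordinal Cardinal Order Set

/-! ### Module Filt: the filter `CF` -/

/-- Tails.  Take `h = fun _ => β`: a closure point `η` is a limit, so `0 < η` and `h 0 < η`. -/
def Stmt_Tail : Prop :=
  ∀ o β : Ordinal.{0}, β < o → ∀ᶠ η in CF o, β < η ∧ η < o ∧ IsSuccLimit η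

/-- A monotone witness.  `h' b = sup {h a + 0 : a ≤ b}` (supremum of a small set); it is `< c.ord`
for `b < c.ord` since `c` is regular and `#(Iic b) < c`; closure points of `h'` are closure points
of `h`. -/
def Stmt_Mono : Prop :=
  ∀ c : Cardinal.{0}, c.IsRegular → ∀ P : Ordinal.{0} → Prop, (∀ᶠ η in CF c.ord, P η) →
    ∃ h : Ordinal.{0} → Ordinal.{0}, (∀ η < c.ord, h η < c.ord) ∧ (∀ a b, a ≤ b → h a ≤ h b) ∧
      ∀ η ∈ CP c.ord h, P η

/-- Completeness: take `h η = sup_i h_i η`. -/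
def Stmt_Compl : Prop :=
  ∀ c : Cardinal.{0}, c.IsRegular → ∀ ι : Type 1, #ι < Cardinal.lift.{1} c →
    ∀ P : ι → Ordinal.{0} → Prop, (∀ i, ∀ᶠ η in CF c.ord, P i η) →
      ∀ᶠ η in CF c.ord, ∀ i, P i η

/-- Normality: take `h m = sup {h_i η' : i ≤ m, η' ≤ m}`. -/
def Stmt_Diag : Prop :=
  ∀ c : Cardinal.{0}, c.IsRegular → ∀ P : Ordinal.{0} → Ordinal.{0} → Prop,
    (∀ i < c.ord, ∀ᶠ η in CF c.ord, P i η) → ∀ᶠ η in CF c.ord, ∀ i < η, P i η

/-- Fodor, from normality by contradiction. -/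
def Stmt_Fodor : Prop :=
  ∀ c : Cardinal.{0}, c.IsRegular → ∀ (P : Ordinal.{0} → Prop) (f : Ordinal.{0} → Ordinal.{0}),
    (∃ᶠ η in CF c.ord, P η ∧ f η < η) → ∃ ν < c.ord, ∃ᶠ η in CF c.ord, P η ∧ f η = ν

/-! ### Module Pts: points of given cofinality, sequences -/

/-- The points of cofinality `κ` are stationary in `c`.  Given `h`, put
`H b = sup_{a ≤ b} h a` and `g i = sup_{i' < i} (max (g i') (H (g i')) + 1)` (recursion); then
`η = g κ.ord` is `< c.ord` (as `κ < c`), a closure point of `h`, and `η.cof = κ`. -/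
def Stmt_CofPts : Prop :=
  ∀ c κ : Cardinal.{0}, c.IsRegular → κ.IsRegular → κ < c → ∃ᶠ η in CF c.ord, η.cof = κ

/-- Continuous cofinal sequences exist: from a fundamental sequence `f` (Mathlib
`exists_isFundamentalSeq`) put `e i = sup_{i' < i} (f i' + 1)`. -/
def Stmt_Seq : Prop :=
  ∀ ξ : Ordinal.{0}, ℵ₀ ≤ ξ.cof → ∃ e, NSeq ξ.cof.ord ξ e

/-- Cofinality of the limit of an increasing sequence
(Mathlib `Order.lift_cof_congr_of_strictMono`, `cof_Iio`). -/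
def Stmt_CofEq : Prop :=
  ∀ (o ξ : Ordinal.{0}) (e : Ordinal.{0} → Ordinal.{0}), IsSuccLimit o → (∀ i < o, e i < ξ) →
    (∀ i < o, ∀ i' < i, e i' < e i) → (∀ β < ξ, ∃ i < o, β < e i) → ξ.cof = o.cof

/-! ### Module Lift: transfer between `CF`s and clubs -/

/-- If `P` holds at club many points of `c` then for club many `ξ < c` and every continuous cofinal
sequence `e` of length `κ` in `ξ`, `P (e k)` for club many `k < κ`.
Proof: monotone `h` for `P` (Stmt_Mono); let `ξ ∈ CP c.ord h`; for `i < K` pick `i'' < K` with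
`h (e i) < e i''`, `H i = max i'' (i+1)`; for `k ∈ CP K H`: `e k < c.ord`, `e k` is a limit, and for
`η' < e k` there is `i < k` with `η' < e i`, so `h η' ≤ h (e i) < e (H i) < e k`. -/
def Stmt_Lift : Prop :=
  ∀ c κ : Cardinal.{0}, c.IsRegular → κ.IsRegular → κ < c → ∀ P : Ordinal.{0} → Prop,
    (∀ᶠ η in CF c.ord, P η) →
    ∀ᶠ ξ in CF c.ord, ∀ e, NSeq κ.ord ξ e → ∀ᶠ k in CF κ.ord, P (e k)

/-- Pull back of a club along a continuous cofinal sequence: `φ η` is a limit point of `C` for club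
many `η`.  Take `h η` = least `η''` with some `c' ∈ C`, `φ η < c' < φ η''`. -/
def Stmt_Pull : Prop :=
  ∀ (c : Cardinal.{0}) (ξ : Ordinal.{0}) (φ : Ordinal.{0} → Ordinal.{0})
    (C : Set Ordinal.{0}), c.IsRegular → NSeq c.ord ξ φ → IsClubIn C ξ →
    ∀ᶠ η in CF c.ord, (∀ δ < φ η, ∃ c' ∈ C, δ < c' ∧ c' < φ η) ∧ φ η ∈ C

/-- Stationary in the sense of clubs implies stationary for `CF`.  By contradiction, with a
monotone `h` (Stmt_Mono): `CP c.ord h` is a club (closing off `ω` times, `ℵ₀ < c`). -/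
def Stmt_StatCF : Prop :=
  ∀ c : Cardinal.{0}, c.IsRegular → ℵ₀ < c → ∀ S : Set Ordinal.{0},
    (∀ C : Set Ordinal.{0}, IsClubIn C c.ord → ∃ k ∈ C, k ∈ S) → ∃ᶠ k in CF c.ord, k ∈ S

/-! ### Module Trans: transitive filtrations and their rank functions -/

/-- Transitive filtrations exist.  For `β < L` choose an injection `f_β` of `Iio β` into
`Iio lam.ord`, `B β k = {α < β : f_β α < (μ k).ord}` (size `≤ μ k`), and by recursion on `β`
`A β k = X β ∪ B β k ∪ ⋃ {A α k : α ∈ X β ∪ B β k}`. -/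
def Stmt_Trans : Prop :=
  ∀ (lam κ : Cardinal.{0}) (μ : Ordinal.{0} → Cardinal.{0}) (X : Ordinal.{0} → Set Ordinal.{0}),
    ℵ₀ ≤ lam → ℵ₀ ≤ κ → (∀ i j, i ≤ j → j < κ.ord → μ i ≤ μ j) → (∀ k < κ.ord, ℵ₀ ≤ μ k) →
    (∀ ν < lam, ∃ k < κ.ord, ν < μ k) →
    (∀ β < (succ lam).ord, X β ⊆ Set.Iio β ∧ ∀ k < κ.ord, #(X β) ≤ Cardinal.lift.{1} (μ k)) →
    ∃ A, Filt lam κ μ X A

/-- The rank function `F β k = sup {F α k + 1 : α ∈ A β k}` of a transitive filtration is a scale: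
`F β k < (μ k)⁺` by induction on `β` (a supremum of at most `μ k` ordinals `< (μ k)⁺`), and
`F α k < F β k` as soon as `α ∈ A β k`. -/
def Stmt_Rank : Prop :=
  ∀ (lam κ : Cardinal.{0}) (μ : Ordinal.{0} → Cardinal.{0}) (X : Ordinal.{0} → Set Ordinal.{0})
    (A : Ordinal.{0} → Ordinal.{0} → Set Ordinal.{0}),
    (∀ k < κ.ord, ℵ₀ ≤ μ k) → Filt lam κ μ X A → ∃ F, Scale lam κ μ F

/-! ### Module Count -/

/-- Counting.  The map `a ↦ (k ↦ if k ∈ St a then φ a k else ρ.ord)` from `ι` to the functions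
`Iio κ.ord → Iio (ρ.ord + 1)` is injective: if `a ≠ a'` have the same image, then for `k ∈ St a`
(stationarily many `k < κ.ord`) also `k ∈ St a'` and `φ a k = φ a' k`, a contradiction. -/
def Stmt_Count : Prop :=
  ∀ (κ ρ : Cardinal.{0}) (ι : Type 1) (St : ι → Set Ordinal.{0})
    (φ : ι → Ordinal.{0} → Ordinal.{0}), ℵ₀ ≤ κ → ℵ₀ ≤ ρ →
    (∀ a, ∃ᶠ k in CF κ.ord, k ∈ St a) → (∀ a, ∀ k ∈ St a, φ a k < ρ.ord) →
    (∀ a a', a ≠ a' → ∀ᶠ k in CF κ.ord, ¬ (k ∈ St a ∧ k ∈ St a' ∧ φ a k = φ a' k)) →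
    #ι ≤ Cardinal.lift.{1} (ρ ^ κ)

/-- The scale is cofinal modulo clubs.  Otherwise for every `a < L` the set
`St a = {k < K : F a k ≤ χ k}` is stationary.  Let `g k` be an injection of `Iic (χ k)` into
`Iio (μ k).ord`.  For `k ∈ St a` limit, `g k (F a k) < (μ i).ord` for some `i < k` (Ctx.cont), so by
Fodor there are `ν a < K` and a stationary `St' a ⊆ St a` with `g k (F a k) < (μ (ν a)).ord` on
`St' a`.  For `ν < K` the set `{a < L : ν a = ν}` has size `≤ (μ ν) ^ κ ≤ lam` by Stmt_Count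
(for `a < b`, `F a k < F b k` on a tail and `g k` is injective), so `lam⁺ ≤ κ * lam = lam`. -/
def Stmt_Cofinal : Prop :=
  ∀ (lam κ θ : Cardinal.{0}) (μ : Ordinal.{0} → Cardinal.{0})
    (F : Ordinal.{0} → Ordinal.{0} → Ordinal.{0}), Ctx lam κ θ μ → Scale lam κ μ F →
    ∀ χ : Ordinal.{0} → Ordinal.{0}, (∀ k < κ.ord, χ k < (succ (μ k)).ord) →
      ∃ a < (succ lam).ord, ∀ᶠ k in CF κ.ord, χ k < F a k

/-! ### Module GFun -/

/-- For `δ < L` of cofinality `κ` choose (Stmt_Seq) an `NSeq K δ (e_δ)` and put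
`G δ k = sSup {F (e_δ i) k : i < k}`.
`key`: given another `NSeq K δ e` (then `δ.cof = κ` by Stmt_CofEq): for `i < K` pick `i' < K`,
`e i < e_δ i'`, `e_δ i < e i'` and `k₀ < K` such that `F (e i) k < F (e_δ i') k` and
`F (e_δ i) k < F (e i') k` for `k ≥ k₀`; take the closure points of `h i = max i' k₀`.
`lt`: `a < e_{a'} i₀` for some `i₀`; for every `i`, `F (e_a i) k < F a k` for large `k`, so by
Stmt_Diag `G a k ≤ F a k` for club many `k`; and `F a k < F (e_{a'} i₀) k ≤ G a' k` for large `k`. -/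
def Stmt_GFun : Prop :=
  ∀ (lam κ θ : Cardinal.{0}) (μ : Ordinal.{0} → Cardinal.{0})
    (F : Ordinal.{0} → Ordinal.{0} → Ordinal.{0}), Ctx lam κ θ μ → Scale lam κ μ F →
    ∃ G, GFun lam κ F G

/-- The key equation.  `e' i = δ (e i)` is an `NSeq K (δ ξ)`, so by GFun.key `G (δ ξ) k` is for club
many `k` the least upper bound of the `F (δ (e i)) k`, `i < k`.
`≤`: `β < G (δ ξ) k` gives `i < k` with `β < F (δ (e i)) k < χ (succ (e i)) k ≤ χ (e (succ i)) k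
< χ (e k) k` (Chain.up; `k` is a limit).
`≥`: let `β < χ (e k) k`; by continuity of `χ · k` and of `e` there is `i < k` with
`β < χ (e i) k`; for club many `k` and all `i < k` (Stmt_Diag) `χ (e i) k < F (δ (succ (e i))) k`
(Chain.dn) and `F (δ (succ (e i))) k ≤ F (δ (e (succ i))) k` (Scale.inc, or equality), which is
`≤ G (δ ξ) k` as `succ i < k`. -/
def Stmt_KEQ : Prop :=
  ∀ (lam κ θ : Cardinal.{0}) (μ : Ordinal.{0} → Cardinal.{0})
    (F G : Ordinal.{0} → Ordinal.{0} → Ordinal.{0}) (γ : Ordinal.{0})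
    (δ Γ : Ordinal.{0} → Ordinal.{0}) (χ : Ordinal.{0} → Ordinal.{0} → Ordinal.{0}),
    Ctx lam κ θ μ → Scale lam κ μ F → GFun lam κ F G → Chain lam κ θ μ F γ δ Γ χ →
    ∀ ξ < θ.ord, ∀ e, NSeq κ.ord ξ e → ∀ᶠ k in CF κ.ord, G (δ ξ) k = χ (e k) k

/-! ### Module Chain -/

/-- Construction of the chain.  Recursion on `η` (strict suprema):
`χ η k = sup_{η' < η} (max (χ η' k) (F (δ η') k) + 1)` and `δ η = sup_{η' < η} N (δ η') (χ η')`
where `N d c` is an ordinal `< L` with `d < N d c`, `h b < N d c` for all `b ≤ d`, and `a < N d c`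
for an `a < L` with `c k < F a k` for club many `k` (Stmt_Cofinal), for `d < L` and
`c k < (μ k)⁺`.  By induction `δ η < L` and `χ η k < (μ k)⁺` for `η ≤ Θ` (regularity of `lam⁺`
and `(μ k)⁺`, `θ ≤ μ k`).  `γ = δ Θ`, `Γ k = χ Θ k`.  `dn`: `χ η k < F a k < F (δ (succ η)) k` for
club many `k` since `a < N (δ η) (χ η) ≤ δ (succ η)`.  `γ` is closed under `h`. -/
def Stmt_Chain : Prop :=
  ∀ (lam κ θ : Cardinal.{0}) (μ : Ordinal.{0} → Cardinal.{0})
    (F : Ordinal.{0} → Ordinal.{0} → Ordinal.{0}), Ctx lam κ θ μ → Scale lam κ μ F →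
    ∀ h : Ordinal.{0} → Ordinal.{0}, (∀ β < (succ lam).ord, h β < (succ lam).ord) →
      ∃ γ ∈ CP (succ lam).ord h, ∃ δ Γ χ, Chain lam κ θ μ F γ δ Γ χ

/-! ### Module Capture -/

/-- The heart.  For stationarily many `k` (say `k ∈ S₀`) `WSfam (μ k) θ (C k)` gives (note
`(Γ k).cof = θ` by Stmt_CofEq) a club `D k` of `Γ k`.  By Stmt_Pull for the sequence
`χ · k` and Stmt_Compl (`κ < θ`): for club many `η < θ`, for all `k ∈ S₀`, `χ η k ∈ D k` (call this
`Q η`).  By Stmt_Lift, for club many `ξ < Θ`: for every `NSeq K ξ e`, `Q (e k)` for club many `k`.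
Let `ξ` be such a point with `ξ.cof = κ` (stationarily many, Stmt_CofPts), `e` a sequence
(Stmt_Seq).  For club many `k ∈ S₀`: `ε = χ (e k) k ∈ D k` and
`ε.cof = (e k).cof = k.cof = (μ k).ord.cof` (Stmt_CofEq, Ctx.cont),
so some `C k ε j` with `j < (μ k).ord` contains the `α ∈ D k ∩ ε` with `α.cof = (μ k).ord.cof`;
`j < (μ i).ord` and `#(C k ε j) ≤ μ i` for some `i < k`; by Fodor there is `ν < K` with
`j < (μ ν).ord`, `#(C k ε j) ≤ μ ν` for stationarily many `k`.  There are `κ < θ` many `ν`, so by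
Stmt_Compl (contraposed) one `ν` works for a stationary set `R` of `ξ`.
For `ξ' < ξ` in `R` with sequences `e'`, `e`: for club many `k`, `G (δ ξ') k = χ (e' k) k`,
`G (δ ξ) k = χ (e k) k` (Stmt_KEQ), `e' k < e k`, `χ (e' k) k ∈ D k` for `k ∈ S₀`; so for stationarily
many `k`, `G (δ ξ') k ∈ C k (G (δ ξ) k) j`, `j < (μ ν).ord`.
Also `(δ ξ').cof = κ` by Stmt_CofEq. -/
def Stmt_Capture : Prop :=
  ∀ (lam κ θ : Cardinal.{0}) (μ : Ordinal.{0} → Cardinal.{0})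
    (F G : Ordinal.{0} → Ordinal.{0} → Ordinal.{0})
    (C : Ordinal.{0} → Ordinal.{0} → Ordinal.{0} → Set Ordinal.{0}) (γ : Ordinal.{0})
    (δ Γ : Ordinal.{0} → Ordinal.{0}) (χ : Ordinal.{0} → Ordinal.{0} → Ordinal.{0}),
    Ctx lam κ θ μ → Scale lam κ μ F → GFun lam κ F G → Chain lam κ θ μ F γ δ Γ χ →
    (∃ᶠ k in CF κ.ord, WSfam (μ k) θ (C k)) →
    ∃ ν < κ.ord, ∃ R : Set Ordinal.{0},
      (∀ ξ ∈ R, ξ < θ.ord ∧ ξ.cof = κ) ∧ (∃ᶠ ξ in CF θ.ord, ξ ∈ R) ∧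
      ∀ ξ ∈ R, ∀ ξ' ∈ R, ξ' < ξ → δ ξ' ∈ XX κ μ G C ν (δ ξ)

/-! ### Module XCard -/

/-- The sets `XX` are small: apply Stmt_Count with `ρ = μ ν`, `ι = XX ... δ`,
`Y k = ⋃ {C k (G δ k) j : j < (μ ν).ord, #(C k (G δ k) j) ≤ μ ν}` (size `≤ μ ν`), an injection
`g k` of `Y k` into `Iio (μ ν).ord`, `St a = {k : G a k ∈ Y k}`, `φ a k = g k (G a k)`; for
`a < a'` in `ι` use GFun.lt. -/
def Stmt_XCard : Prop :=
  ∀ (lam κ θ : Cardinal.{0}) (μ : Ordinal.{0} → Cardinal.{0})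
    (F G : Ordinal.{0} → Ordinal.{0} → Ordinal.{0})
    (C : Ordinal.{0} → Ordinal.{0} → Ordinal.{0} → Set Ordinal.{0}),
    Ctx lam κ θ μ → GFun lam κ F G → ∀ ν < κ.ord,
    ∀ δ < (succ lam).ord, #(XX κ μ G C ν δ) ≤ Cardinal.lift.{1} ((μ ν) ^ κ)

/-! ### Module WSq -/

/-- Weak square implies `WS(μ, θ)`.  For `γ < μ⁺` of cofinality `θ` take `D ∈ C γ`.  The order type
of `D` is `≤ μ.ord`, and it is not `μ.ord` since the cofinality of `μ.ord` is not `θ` (`D` is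
cofinal in `γ`); so `#D < μ`.  The set of limit points of `D` is a club of `γ`.
For limits `ε < μ⁺` enumerate the members of `C ε` of size `< μ` by `Iio μ.ord`. -/
def Stmt_WSq : Prop :=
  ∀ μ θ : Cardinal.{0}, ℵ₀ ≤ μ → θ.IsRegular → ℵ₀ < θ → θ ≠ μ.ord.cof → WeakSquare μ → WS μ θ

/-! ### Final assembly -/

/-- The main theorem. -/
def Stmt_Main : Prop :=
  ∀ (lam κ θ : Cardinal.{0}) (μ : Ordinal.{0} → Cardinal.{0}), Ctx lam κ θ μ →
    lam.ord.cof = κ →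
    (∀ C : Set Ordinal.{0}, IsClubIn C κ.ord → ∃ k ∈ C, WS (μ k) θ) → Fat lam θ

end Pool.FAT
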